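import Mathlib

open scoped TensorProduct

universe u

namespace Pool.Agent.H16.CanDual

section general

variable (k : Type u) [Field k] (R : Type u) [CommRing R] [Algebra k R]

/-- the `k`-dual of `R`. -/
def Om : Type u := R →ₗ[k] k

instance : AddCommGroup (Om k R) := inferInstanceAs (AddCommGroup (R →ₗ[k] k))
instance : Module k (Om k R) := inferInstanceAs (Module k (R →ₗ[k] k))

variable {k R}

def Om.ev (w : Om k R) : R →ₗ[k] k := w

@[ext] theorem Om.ext {w w' : Om k R} (h : ∀ r, w.ev r = w'.ev r) : w = w' :=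
  LinearMap.ext h

@[simp] theorem Om.add_ev (w w' : Om k R) (r : R) : (w + w').ev r = w.ev r + w'.ev r := rfl
@[simp] theorem Om.zero_ev (r : R) : (0 : Om k R).ev r = 0 := rfl
@[simp] theorem Om.ksmul_ev (c : k) (w : Om k R) (r : R) : (c • w).ev r = c * w.ev r := rfl

instance : SMul R (Om k R) := ⟨fun r w => (w.ev ∘ₗ LinearMap.mulRight k r : R →ₗ[k] k)⟩

@[simp] theorem Om.smul_ev (r : R) (w : Om k R) (s : R) : (r • w).ev s = w.ev (s * r) := rfl

instance : Module R (Om k R) where
  one_smul w := by ext; simp
  mul_smul r s w := by ext t; simp [mul_assoc, mul_comm r s]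
  smul_zero r := by ext; simp
  smul_add r w w' := by ext; simp
  add_smul r s w := by ext; simp [mul_add]
  zero_smul w := by ext; simp

instance : IsScalarTower k R (Om k R) where
  smul_assoc c r w := by ext t; simp

theorem om_injective : Module.Injective R (Om k R) := by
  apply Module.Baer.injective
  intro I g
  let g' : (I : Type u) →ₗ[k] k :=
    { toFun := fun x => (g x).ev 1
      map_add' := by intro x y; simp
      map_smul' := by
        intro c x
        have : c • x = (algebraMap k R c) • x := by
          ext; simp [Algebra.smul_def]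
        rw [this, map_smul]
        simp only [Om.smul_ev, one_mul, RingHom.id_apply]
        have h2 : (algebraMap k R c) = c • (1 : R) := by simp [Algebra.algebraMap_eq_smul_one]
        rw [h2, map_smul] }
  obtain ⟨G, hG⟩ := LinearMap.exists_extend (p := I.restrictScalars k) g'
  refine ⟨{ toFun := fun r => (r • (show Om k R from G)), map_add' := ?_, map_smul' := ?_ }, ?_⟩
  · intro x y; rw [add_smul]
  · intro r x; exact mul_smul r x (show Om k R from G)
  · intro x hx
    ext s
    have h1 : G (s * x) = g' ⟨s * x, I.mul_mem_left s hx⟩ := by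
      rw [← hG]; rfl
    show G (s * x) = _
    rw [h1]
    show (g ⟨s * x, _⟩).ev 1 = _
    have h3 : (⟨s * x, I.mul_mem_left s hx⟩ : I) = s • ⟨x, hx⟩ := by
      ext; simp
    rw [h3, map_smul]
    simp

variable {M : Type u} [AddCommGroup M] [Module k M] [Module R M] [IsScalarTower k R M]

/-- the element of the canonical dual given by a functional -/
def del (φ : M →ₗ[k] k) : M →ₗ[R] Om k R where
  toFun m := (φ ∘ₗ ((LinearMap.toSpanSingleton R M m).restrictScalars k) : R →ₗ[k] k)
  map_add' m m' := by
    ext r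
    show φ (r • (m + m')) = φ (r • m) + φ (r • m')
    simp
  map_smul' r m := by
    ext s
    show φ (s • (r • m)) = φ ((s * r) • m)
    rw [mul_smul]

@[simp] theorem del_ev (φ : M →ₗ[k] k) (m : M) (r : R) : (del (R := R) φ m).ev r = φ (r • m) := rfl

/-- the functional of an element of the canonical dual -/
def fnl (f : M →ₗ[R] Om k R) : M →ₗ[k] k where
  toFun m := (f m).ev 1
  map_add' m m' := by simp
  map_smul' c m := by
    have : c • m = (algebraMap k R c) • m := by simp
    rw [this, map_smul]
    simp only [Om.smul_ev, one_mul, RingHom.id_apply]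
    have h2 : (algebraMap k R c) = c • (1 : R) := by simp [Algebra.algebraMap_eq_smul_one]
    rw [h2, map_smul]

@[simp] theorem fnl_apply (f : M →ₗ[R] Om k R) (m : M) : fnl f m = (f m).ev 1 := rfl

theorem ev_eq (f : M →ₗ[R] Om k R) (m : M) (r : R) : (f m).ev r = (f (r • m)).ev 1 := by
  rw [map_smul]; simp

theorem del_fnl (f : M →ₗ[R] Om k R) : del (fnl f) = f := by
  ext m r
  simp

theorem smul_del (r : R) (φ : M →ₗ[k] k) :
    r • del (R := R) φ = del (R := R) (φ ∘ₗ ((LinearMap.lsmul R M r).restrictScalars k)) := by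
  ext m s
  simp [smul_smul, mul_comm]

variable (k R M) in
/-- evaluation -/
noncomputable def evMap : M ⊗[R] (M →ₗ[R] Om k R) →ₗ[R] Om k R :=
  TensorProduct.lift (LinearMap.applyₗ)

@[simp] theorem evMap_tmul (m : M) (f : M →ₗ[R] Om k R) : evMap k R M (m ⊗ₜ f) = f m := rfl

variable [FiniteDimensional k M] [FiniteDimensional k R]

theorem evMap_surjective (hf : ∀ r : R, (∀ m : M, r • m = 0) → r = 0) :
    Function.Surjective (evMap k R M) := by
  rw [← LinearMap.range_eq_top]
  by_contra hne
  have hlt : ((LinearMap.range (evMap k R M)).restrictScalars k : Submodule k (R →ₗ[k] k)) < ⊤ := by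
    rw [lt_top_iff_ne_top]
    intro h
    apply hne
    rw [Submodule.restrictScalars_eq_top_iff] at h
    exact h
  obtain ⟨F, hF0, hF⟩ := Submodule.exists_le_ker_of_lt_top _ hlt
  obtain ⟨r, rfl⟩ := (Module.evalEquiv k R).surjective F
  apply hF0
  have : r = 0 := by
    apply hf
    intro m
    rw [← Module.forall_dual_apply_eq_zero_iff k]
    intro φ
    have h1 : (del (R := R) φ m) ∈ LinearMap.range (evMap k R M) := ⟨m ⊗ₜ del φ, rfl⟩
    have h2 := hF h1
    exact h2
  rw [this]
  exact map_zero _

theorem evMap_injective (he : ∀ T : M →ₗ[R] M, ∃ r : R, ∀ m, T m = r • m) :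
    Function.Injective (evMap k R M) := by
  rw [injective_iff_map_eq_zero]
  intro t ht
  rw [← Module.forall_dual_apply_eq_zero_iff k]
  intro L
  -- the double dual
  let B : M → Module.Dual k (Module.Dual k M) := fun m =>
    { toFun := fun φ => L (m ⊗ₜ del (R := R) φ)
      map_add' := by
        intro φ ψ
        rw [← map_add, ← TensorProduct.tmul_add]
        rfl
      map_smul' := by
        intro c φ
        have h1 : del (R := R) (c • φ) = (algebraMap k R c) • del (R := R) φ := by
          ext m r
          simp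
        rw [h1, ← TensorProduct.smul_tmul, algebraMap_smul]
        show L (c • (m ⊗ₜ del φ)) = _
        rw [map_smul]
        rfl }
  let T0 : M → M := fun m => (Module.evalEquiv k M).symm (B m)
  have hT0 : ∀ m (φ : M →ₗ[k] k), φ (T0 m) = L (m ⊗ₜ del (R := R) φ) := by
    intro m φ
    have : (Module.evalEquiv k M) (T0 m) = B m := by simp [T0]
    have h2 := congrArg (fun F => F φ) this
    exact h2
  have hsep : ∀ x y : M, (∀ φ : M →ₗ[k] k, φ x = φ y) → x = y := by
    intro x y h
    rw [← sub_eq_zero, ← Module.forall_dual_apply_eq_zero_iff k]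
    intro φ
    rw [map_sub, sub_eq_zero]
    exact h φ
  let T : M →ₗ[R] M :=
    { toFun := T0
      map_add' := by
        intro x y
        apply hsep
        intro φ
        rw [map_add, hT0, hT0, hT0, TensorProduct.add_tmul, map_add]
      map_smul' := by
        intro r x
        apply hsep
        intro φ
        have h3 : φ ((RingHom.id R) r • T0 x)
            = (φ ∘ₗ ((LinearMap.lsmul R M r).restrictScalars k)) (T0 x) := rfl
        rw [h3, hT0, hT0, ← smul_del, TensorProduct.smul_tmul] }
  obtain ⟨r, hr⟩ := he T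
  have key : ∀ s : M ⊗[R] (M →ₗ[R] Om k R), L s = (evMap k R M s).ev r := by
    intro s
    induction s using TensorProduct.induction_on with
    | zero => simp
    | add x y hx hy => rw [map_add, map_add, hx, hy]; rfl
    | tmul m f =>
      have h1 : L (m ⊗ₜ f) = fnl f (T m) := by
        have := hT0 m (fnl f)
        rw [del_fnl] at this
        rw [← this]; rfl
      rw [h1, hr]
      simp
  rw [key, ht]
  simp

end general

section concrete

variable (k : Type u) [Field k] (a b : ℕ)

/-- the trivial extension of `k` by the `b × a` matrices -/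
abbrev Rg : Type u := TrivSqZeroExt k (Matrix (Fin b) (Fin a) k)

/-- the module `k^a ⊕ k^b` -/
def Md (k : Type u) (a b : ℕ) : Type u := (Fin a → k) × (Fin b → k)

instance : AddCommGroup (Md k a b) := inferInstanceAs (AddCommGroup ((Fin a → k) × (Fin b → k)))
instance : Module k (Md k a b) := inferInstanceAs (Module k ((Fin a → k) × (Fin b → k)))
instance : FiniteDimensional k (Md k a b) :=
  inferInstanceAs (FiniteDimensional k ((Fin a → k) × (Fin b → k)))

variable {k a b}

@[simp] theorem Md.add_fst (x y : Md k a b) : (x + y).1 = x.1 + y.1 := rfl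
@[simp] theorem Md.add_snd (x y : Md k a b) : (x + y).2 = x.2 + y.2 := rfl
@[simp] theorem Md.zero_fst : (0 : Md k a b).1 = 0 := rfl
@[simp] theorem Md.zero_snd : (0 : Md k a b).2 = 0 := rfl
@[simp] theorem Md.ksmul_fst (c : k) (x : Md k a b) : (c • x).1 = c • x.1 := rfl
@[simp] theorem Md.ksmul_snd (c : k) (x : Md k a b) : (c • x).2 = c • x.2 := rfl

/-- constructor -/
def Md.mk (x : Fin a → k) (y : Fin b → k) : Md k a b := (x, y)

@[simp] theorem Md.mk_fst (x : Fin a → k) (y : Fin b → k) : (Md.mk x y).1 = x := rfl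
@[simp] theorem Md.mk_snd (x : Fin a → k) (y : Fin b → k) : (Md.mk x y).2 = y := rfl

theorem Md.ext' {x y : Md k a b} (h1 : ∀ i, x.1 i = y.1 i) (h2 : ∀ i, x.2 i = y.2 i) : x = y :=
  Prod.ext (funext h1) (funext h2)

instance : SMul (Rg k a b) (Md k a b) :=
  ⟨fun r v => (r.fst • v.1, r.fst • v.2 + r.snd.mulVec v.1)⟩

@[simp] theorem Md.smul_fst (r : Rg k a b) (x : Md k a b) : (r • x).1 = r.fst • x.1 := rfl
@[simp] theorem Md.smul_snd (r : Rg k a b) (x : Md k a b) :
    (r • x).2 = r.fst • x.2 + r.snd.mulVec x.1 := rfl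

instance : Module (Rg k a b) (Md k a b) where
  one_smul x := by apply Md.ext' <;> intro i <;> simp
  mul_smul r s x := by
    apply Md.ext' <;> intro i
    · simp [mul_assoc]
    · simp [Matrix.add_mulVec, Matrix.smul_mulVec, Matrix.mulVec_smul, mul_assoc]
      ring
  smul_zero r := by apply Md.ext' <;> intro i <;> simp
  smul_add r x y := by
    apply Md.ext' <;> intro i
    · simp [mul_add]
    · simp [mul_add, Matrix.mulVec_add]; ring
  add_smul r s x := by
    apply Md.ext' <;> intro i
    · simp [add_mul]
    · simp [add_mul, Matrix.add_mulVec]; ring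
  zero_smul x := by apply Md.ext' <;> intro i <;> simp

instance : IsScalarTower k (Rg k a b) (Md k a b) where
  smul_assoc c r x := by
    apply Md.ext' <;> intro i
    · simp [mul_assoc]
    · simp [mul_add, mul_assoc, Matrix.smul_mulVec]

instance : FiniteDimensional k (Rg k a b) :=
  inferInstanceAs (FiniteDimensional k (k × Matrix (Fin b) (Fin a) k))

instance : IsArtinianRing (Rg k a b) := IsArtinianRing.of_finite k _

instance : IsLocalRing (Rg k a b) := by
  apply IsLocalRing.of_isUnit_or_isUnit_one_sub_self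
  intro r
  by_cases h : r.fst = 0
  · right
    rw [TrivSqZeroExt.isUnit_iff_isUnit_fst]
    simp [h]
  · left
    rw [TrivSqZeroExt.isUnit_iff_isUnit_fst]
    exact isUnit_iff_ne_zero.mpr h

theorem mem_max (r : Rg k a b) : r ∈ IsLocalRing.maximalIdeal (Rg k a b) ↔ r.fst = 0 := by
  rw [IsLocalRing.mem_maximalIdeal, mem_nonunits_iff, TrivSqZeroExt.isUnit_iff_isUnit_fst,
    isUnit_iff_ne_zero, not_not]

theorem max_sq : (IsLocalRing.maximalIdeal (Rg k a b)) ^ 2 = ⊥ := by
  rw [eq_bot_iff, pow_two, Ideal.mul_le]
  intro r hr s hs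
  rw [mem_max] at hr hs
  rw [Ideal.mem_bot]
  apply TrivSqZeroExt.ext
  · simp [hr]
  · simp [hr, hs]

theorem finrank_R : Module.finrank k (Rg k a b) = 1 + b * a := by
  have : Module.finrank k (k × Matrix (Fin b) (Fin a) k) = 1 + b * a := by
    rw [Module.finrank_prod, Module.finrank_matrix]; simp
  exact this

theorem finrank_M : Module.finrank k (Md k a b) = a + b := by
  have : Module.finrank k ((Fin a → k) × (Fin b → k)) = a + b := by
    rw [Module.finrank_prod]; simp
  exact this

theorem finrank_Om : Module.finrank k (Om k (Rg k a b)) = 1 + b * a := by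
  have : Module.finrank k (Module.Dual k (Rg k a b)) = 1 + b * a := by
    rw [Subspace.dual_finrank_eq, finrank_R]
  exact this

theorem faithful (ha : 0 < a) (r : Rg k a b) (h : ∀ m : Md k a b, r • m = 0) :
    r = 0 := by
  have h1 : r.fst = 0 := by
    have := congrArg (fun x : Md k a b => x.1 ⟨0, ha⟩) (h (Md.mk (Pi.single ⟨0, ha⟩ 1) 0))
    simpa using this
  apply TrivSqZeroExt.ext
  · exact h1
  · ext i j
    have := congrArg (fun x : Md k a b => x.2 i) (h (Md.mk (Pi.single j 1) 0))
    simpa [h1] using this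

theorem single_smul (i : Fin b) (j : Fin a) (m : Md k a b) :
    (TrivSqZeroExt.inr (Matrix.single i j (1 : k)) : Rg k a b) • m
        = Md.mk 0 (Pi.single i (m.1 j)) := by
  apply Md.ext'
  · intro l; simp
  · intro l
    simp only [Md.smul_snd, TrivSqZeroExt.fst_inr, TrivSqZeroExt.snd_inr, zero_smul, zero_add]
    by_cases hl : l = i
    · subst hl; simp [Matrix.mulVec, dotProduct, Matrix.single_apply]
    · have : i ≠ l := fun h => hl h.symm
      simp [Matrix.mulVec, dotProduct, hl, this]

theorem endo (ha : 0 < a) (hb : 0 < b) (T : Md k a b →ₗ[Rg k a b] Md k a b) :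
    ∃ r : Rg k a b, ∀ m, T m = r • m := by
  let i0 : Fin b := ⟨0, hb⟩
  let j0 : Fin a := ⟨0, ha⟩
  let c : k := (T (Md.mk (Pi.single j0 1) 0)).1 j0
  -- the relation
  have hrel : ∀ (i : Fin b) (j : Fin a) (m : Md k a b),
      T (Md.mk 0 (Pi.single i (m.1 j))) = Md.mk 0 (Pi.single i ((T m).1 j)) := by
    intro i j m
    rw [← single_smul, map_smul, single_smul]
  -- `T` is `k`-linear
  have hTk : ∀ (d : k) (m : Md k a b), T (d • m) = d • T m := by
    intro d m
    rw [← algebraMap_smul (Rg k a b) d m, map_smul, algebraMap_smul]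
  have hT1 : ∀ i : Fin b, T (Md.mk 0 (Pi.single i 1)) = Md.mk 0 (Pi.single i c) := by
    intro i
    have := hrel i j0 (Md.mk (Pi.single j0 1) 0)
    simpa using this
  let T1 : (Fin b → k) →ₗ[k] Md k a b :=
    { toFun := fun v => T (Md.mk 0 v)
      map_add' := by
        intro v w
        rw [← map_add]; congr 1
        apply Md.ext' <;> intro i <;> simp
      map_smul' := by
        intro d v
        rw [RingHom.id_apply, ← hTk]; congr 1
        apply Md.ext' <;> intro i <;> simp }
  let T1' : (Fin b → k) →ₗ[k] Md k a b :=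
    { toFun := fun v => Md.mk 0 (c • v)
      map_add' := by
        intro v w
        apply Md.ext' <;> intro i <;> simp [mul_add]
      map_smul' := by
        intro d v
        apply Md.ext' <;> intro i <;> simp [mul_left_comm] }
  have hT11 : T1 = T1' := by
    apply LinearMap.pi_ext'
    intro i
    ext
    · show (T (Md.mk 0 (Pi.single i 1))) = Md.mk 0 (c • Pi.single i 1)
      rw [hT1]
      apply Md.ext' 
      · intro l; simp
      · intro l
        by_cases hl : l = i
        · subst hl; simp 
        · simp [hl]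
  have hT1c : ∀ v : Fin b → k, T (Md.mk 0 v) = Md.mk 0 (c • v) := by
    intro v
    exact congrArg (fun f => f v) hT11
  have hT00 : ∀ (m : Md k a b) (j : Fin a), (T m).1 j = c * m.1 j := by
    intro m j
    have h1 := hrel i0 j m
    rw [hT1c] at h1
    have h2 := congrArg (fun x : Md k a b => x.2 i0) h1
    simpa using h2.symm
  let T2 : (Fin a → k) →ₗ[k] (Fin b → k) :=
    { toFun := fun v => (T (Md.mk v 0)).2
      map_add' := by
        intro v w
        rw [← Md.add_snd, ← map_add]; congr 2
        apply Md.ext' <;> intro i <;> simp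
      map_smul' := by
        intro d v
        rw [RingHom.id_apply, ← Md.ksmul_snd, ← hTk]; congr 2
        apply Md.ext' <;> intro i <;> simp }
  refine ⟨(c, LinearMap.toMatrix' T2), ?_⟩
  intro m
  have hdec : m = Md.mk m.1 0 + Md.mk 0 m.2 := by
    apply Md.ext' <;> intro i <;> simp
  apply Md.ext'
  · intro j
    rw [hT00]; rfl
  · intro i
    conv_lhs => rw [hdec, map_add, hT1c]
    have h3 : (T (Md.mk m.1 0)).2 = (LinearMap.toMatrix' T2).mulVec m.1 := by
      rw [LinearMap.toMatrix'_mulVec]; rfl
    rw [Md.add_snd, h3]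
    show _ = (c • m.2 + (LinearMap.toMatrix' T2).mulVec m.1) i
    simp [add_comm]

/-- the socle generator of `ω` -/
def w0 : Om k (Rg k a b) := (LinearMap.fst k k (Matrix (Fin b) (Fin a) k) :)

@[simp] theorem w0_ev (r : Rg k a b) : (w0 : Om k (Rg k a b)).ev r = r.fst := rfl

theorem type_one :
    Nonempty ((IsLocalRing.ResidueField (Rg k a b) →ₗ[Rg k a b] Om k (Rg k a b))
      ≃ₗ[Rg k a b] IsLocalRing.ResidueField (Rg k a b)) := by
  -- the embedding of the residue field
  let j : IsLocalRing.ResidueField (Rg k a b) →ₗ[Rg k a b] Om k (Rg k a b) :=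
    Submodule.liftQ (IsLocalRing.maximalIdeal (Rg k a b))
      (LinearMap.toSpanSingleton (Rg k a b) (Om k (Rg k a b)) w0) (by
        intro r hr
        rw [mem_max] at hr
        rw [LinearMap.mem_ker]
        ext s
        simp [hr])
  have hj : ∀ r : Rg k a b, j (IsLocalRing.residue (Rg k a b) r) = r • w0 := fun r => rfl
  -- `c ↦ (x ↦ j (c x))`
  let F : IsLocalRing.ResidueField (Rg k a b) →ₗ[Rg k a b]
      (IsLocalRing.ResidueField (Rg k a b) →ₗ[Rg k a b] Om k (Rg k a b)) :=
    { toFun := fun c => j ∘ₗ (LinearMap.mulLeft (Rg k a b) c)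
      map_add' := by intro x y; ext z; simp [add_mul]
      map_smul' := by intro x y; ext z; simp }
  have hF : Function.Bijective F := by
    constructor
    · rw [injective_iff_map_eq_zero]
      intro c hc
      obtain ⟨r, rfl⟩ := IsLocalRing.residue_surjective c
      have h1 := congrArg (fun f => f (1 : IsLocalRing.ResidueField (Rg k a b))) hc
      have h2 : j ((IsLocalRing.residue (Rg k a b) r) * 1) = 0 := h1
      rw [mul_one, hj] at h2
      have h3 := congrArg (fun w : Om k (Rg k a b) => w.ev 1) h2
      simp at h3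
      rw [IsLocalRing.residue_eq_zero_iff, mem_max]
      exact h3
    · intro f
      let w : Om k (Rg k a b) := f 1
      refine ⟨IsLocalRing.residue (Rg k a b) (TrivSqZeroExt.inl (w.ev 1)), ?_⟩
      have hw : ∀ r : Rg k a b, w.ev r = (w.ev 1) * r.fst := by
        intro r
        have h1 : r = (r.fst) • (1 : Rg k a b) + TrivSqZeroExt.inr r.snd := by
          apply TrivSqZeroExt.ext <;> simp
        have h2 : w.ev (TrivSqZeroExt.inr r.snd : Rg k a b) = 0 := by
          have h3 : (TrivSqZeroExt.inr r.snd : Rg k a b) • (1 : IsLocalRing.ResidueField (Rg k a b)) = 0 := by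
            have : (TrivSqZeroExt.inr r.snd : Rg k a b) ∈ IsLocalRing.maximalIdeal (Rg k a b) := by
              rw [mem_max]; simp
            rw [Algebra.smul_def, mul_one]
            exact (IsLocalRing.residue_eq_zero_iff _).mpr this
          have h4 : (TrivSqZeroExt.inr r.snd : Rg k a b) • w = 0 := by
            show _ • f 1 = 0
            rw [← map_smul, h3, map_zero]
          have h5 := congrArg (fun w : Om k (Rg k a b) => w.ev 1) h4
          simpa using h5
        conv_lhs => rw [h1]
        rw [map_add, map_smul, h2]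
        simp [mul_comm]
      apply LinearMap.ext
      intro x
      obtain ⟨r, rfl⟩ := IsLocalRing.residue_surjective x
      have hfr : f (IsLocalRing.residue (Rg k a b) r) = r • w := by
        show _ = r • f 1
        rw [← map_smul, Algebra.smul_def, mul_one]
        rfl
      rw [hfr]
      show j ((IsLocalRing.residue (Rg k a b) (TrivSqZeroExt.inl (w.ev 1)))
        * (IsLocalRing.residue (Rg k a b) r)) = _
      rw [← map_mul, hj]
      ext s
      rw [Om.smul_ev, Om.smul_ev, w0_ev, hw (s * r)]
      simp only [TrivSqZeroExt.fst_mul, TrivSqZeroExt.fst_inl]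
      ring
  exact ⟨(LinearEquiv.ofBijective F hF).symm⟩

/-- a self-extension of `Md` -/
def Ex (k : Type u) (a b : ℕ) : Type u := Md k a b × Md k a b

instance : AddCommGroup (Ex k a b) := inferInstanceAs (AddCommGroup (Md k a b × Md k a b))

/-- constructor -/
def Ex.mk (x y : Md k a b) : Ex k a b := (x, y)

@[simp] theorem Ex.mk_fst (x y : Md k a b) : (Ex.mk x y).1 = x := rfl
@[simp] theorem Ex.mk_snd (x y : Md k a b) : (Ex.mk x y).2 = y := rfl
@[simp] theorem Ex.add_fst (x y : Ex k a b) : (x + y).1 = x.1 + y.1 := rfl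
@[simp] theorem Ex.add_snd (x y : Ex k a b) : (x + y).2 = x.2 + y.2 := rfl
@[simp] theorem Ex.zero_fst : (0 : Ex k a b).1 = 0 := rfl
@[simp] theorem Ex.zero_snd : (0 : Ex k a b).2 = 0 := rfl

theorem Ex.ext' {x y : Ex k a b} (h1 : x.1 = y.1) (h2 : x.2 = y.2) : x = y :=
  Prod.ext h1 h2

/-- the cocycle -/
def beta (φ : Matrix (Fin b) (Fin a) k) (i0 : Fin b) (j0 j1 : Fin a) (v : Fin a → k) : Fin b → k :=
  Pi.single i0 (φ i0 j0 * v j1)

/-- the twisted extension -/
@[reducible] def exSMul (i0 : Fin b) (j0 j1 : Fin a) : SMul (Rg k a b) (Ex k a b) :=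
  ⟨fun r x => Ex.mk (r • x.1 + Md.mk 0 (beta r.snd i0 j0 j1 x.2.1)) (r • x.2)⟩

@[reducible] def exModule (i0 : Fin b) (j0 j1 : Fin a) : Module (Rg k a b) (Ex k a b) :=
  letI := exSMul (k := k) i0 j0 j1
  have h1 : ∀ (r : Rg k a b) (x : Ex k a b), (r • x).1
      = r • x.1 + Md.mk 0 (beta r.snd i0 j0 j1 x.2.1) := fun _ _ => rfl
  have h2 : ∀ (r : Rg k a b) (x : Ex k a b), (r • x).2 = r • x.2 := fun _ _ => rfl
  { one_smul := by
      intro x
      apply Ex.ext'
      · rw [h1, one_smul]
        apply Md.ext' <;> intro i <;> simp [beta]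
      · rw [h2, one_smul]
    mul_smul := by
      intro r s x
      apply Ex.ext'
      · rw [h1, h1, h1, h2, mul_smul, smul_add, add_assoc]
        congr 1
        apply Md.ext'
        · intro i; simp
        · intro i
          by_cases hi : i = i0
          · subst hi; simp [beta]; ring
          · simp [beta, hi]
      · rw [h2, h2, h2, mul_smul]
    smul_zero := by
      intro r
      apply Ex.ext'
      · rw [h1]
        apply Md.ext' <;> intro i <;> simp [beta]
      · rw [h2]; simp
    zero_smul := by
      intro x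
      apply Ex.ext'
      · rw [h1]
        apply Md.ext' <;> intro i <;> simp [beta]
      · rw [h2]; simp
    smul_add := by
      intro r x y
      apply Ex.ext'
      · rw [Ex.add_fst, h1, h1, h1, Ex.add_fst, Ex.add_snd, smul_add]
        have : Md.mk (0 : Fin a → k) (beta r.snd i0 j0 j1 (x.2 + y.2).1)
          = Md.mk 0 (beta r.snd i0 j0 j1 x.2.1) + Md.mk 0 (beta r.snd i0 j0 j1 y.2.1) := by
          apply Md.ext'
          · intro i; simp
          · intro i
            by_cases hi : i = i0
            · subst hi; simp [beta]; ring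
            · simp [beta, hi]
        rw [this]; abel
      · rw [h2, Ex.add_snd, Ex.add_snd, smul_add, h2, h2]
    add_smul := by
      intro r s x
      apply Ex.ext'
      · rw [h1, Ex.add_fst, h1, h1, add_smul]
        have : Md.mk (0 : Fin a → k) (beta (r + s).snd i0 j0 j1 x.2.1)
          = Md.mk 0 (beta r.snd i0 j0 j1 x.2.1) + Md.mk 0 (beta s.snd i0 j0 j1 x.2.1) := by
          apply Md.ext'
          · intro i; simp
          · intro i
            by_cases hi : i = i0
            · subst hi; simp [beta]; ring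
            · simp [beta, hi]
        rw [this]; abel
      · rw [h2, Ex.add_snd, h2, h2, add_smul] }

theorem nonsplit (ha : 2 ≤ a) (hb : 2 ≤ b) :
    ∃ (E : Type u) (_ : AddCommGroup E) (_ : Module (Rg k a b) E)
      (i : Md k a b →ₗ[Rg k a b] E) (p : E →ₗ[Rg k a b] Md k a b),
      Function.Injective i ∧ Function.Surjective p ∧ Function.Exact i p ∧
      ¬ ∃ s : Md k a b →ₗ[Rg k a b] E, ∀ m, p (s m) = m := by
  let i0 : Fin b := ⟨0, by omega⟩
  let i1 : Fin b := ⟨1, by omega⟩
  let j0 : Fin a := ⟨0, by omega⟩
  let j1 : Fin a := ⟨1, by omega⟩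
  have hi : i1 ≠ i0 := by simp [i0, i1]
  have hj : j1 ≠ j0 := by simp [j0, j1]
  letI := exModule (k := k) i0 j0 j1
  have h1 : ∀ (r : Rg k a b) (x : Ex k a b), (r • x).1
      = r • x.1 + Md.mk 0 (beta r.snd i0 j0 j1 x.2.1) := fun _ _ => rfl
  have h2 : ∀ (r : Rg k a b) (x : Ex k a b), (r • x).2 = r • x.2 := fun _ _ => rfl
  refine ⟨Ex k a b, inferInstance, inferInstance,
    { toFun := fun m => Ex.mk m 0
      map_add' := ?_
      map_smul' := ?_ },
    { toFun := fun x => x.2
      map_add' := fun _ _ => rfl
      map_smul' := fun _ _ => rfl }, ?_, ?_, ?_, ?_⟩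
  · intro x y; apply Ex.ext' <;> simp
  · intro r x
    apply Ex.ext'
    · rw [h1]
      simp only [Ex.mk_fst, Ex.mk_snd, RingHom.id_apply]
      apply Md.ext' <;> intro i <;> simp [beta]
    · rw [h2]; simp
  · intro x y hxy
    exact congrArg (fun z : Ex k a b => z.1) hxy
  · intro m
    exact ⟨Ex.mk 0 m, rfl⟩
  · intro x
    constructor
    · intro hx
      exact ⟨x.1, Ex.ext' rfl hx.symm⟩
    · rintro ⟨m, rfl⟩; rfl
  · rintro ⟨s, hs⟩
    have hs' : ∀ m, (s m).2 = m := hs
    -- the relation for matrix units
    have hrel : ∀ (i : Fin b) (j : Fin a) (m : Md k a b),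
        (s (Md.mk 0 (Pi.single i (m.1 j)))).1
          = Md.mk 0 (Pi.single i ((s m).1.1 j) + beta (Matrix.single i j 1) i0 j0 j1 m.1) := by
      intro i j m
      rw [← single_smul, map_smul, h1, single_smul, hs', TrivSqZeroExt.snd_inr]
      apply Md.ext' <;> intro l <;> simp
    have e0 := hrel i0 j0 (Md.mk (Pi.single j1 1) 0)
    have e1 := hrel i1 j0 (Md.mk (Pi.single j1 1) 0)
    have z : ∀ i : Fin b, Md.mk (0 : Fin a → k) (Pi.single i ((Md.mk (Pi.single j1 (1 : k)) 0 : Md k a b).1 j0)) = 0 := by
      intro i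
      apply Md.ext' <;> intro l <;> simp [hj.symm]
    rw [z] at e0 e1
    have f0 := congrArg (fun x : Md k a b => x.2 i0) e0
    have f1 := congrArg (fun x : Md k a b => x.2 i1) e1
    simp [beta, hi] at f0 f1
    rw [← f1] at f0
    simp at f0

theorem residue_bij :
    Function.Bijective (algebraMap k (IsLocalRing.ResidueField (Rg k a b))) := by
  constructor
  · exact (algebraMap k (IsLocalRing.ResidueField (Rg k a b))).injective
  · intro x
    obtain ⟨r, rfl⟩ := IsLocalRing.residue_surjective x
    refine ⟨r.fst, ?_⟩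
    rw [IsScalarTower.algebraMap_apply k (Rg k a b) (IsLocalRing.ResidueField (Rg k a b))]
    show IsLocalRing.residue (Rg k a b) _ = _
    rw [← sub_eq_zero, ← map_sub, IsLocalRing.residue_eq_zero_iff, mem_max]
    have : (algebraMap k (Rg k a b) r.fst).fst = r.fst := rfl
    simp [this]

theorem main (k : Type u) [Field k] (a b : ℕ) (ha : 2 ≤ a) (hb : 2 ≤ b) :
    ∃ (R : Type u) (_ : CommRing R) (_ : Algebra k R) (_ : IsLocalRing R) (_ : IsArtinianRing R)
      (ω : Type u) (_ : AddCommGroup ω) (_ : Module R ω)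
      (M : Type u) (_ : AddCommGroup M) (_ : Module R M),
      Function.Bijective (algebraMap k (IsLocalRing.ResidueField R)) ∧
      Module.finrank k R = a * b + 1 ∧
      (IsLocalRing.maximalIdeal R) ^ 2 = ⊥ ∧
      (Module.Finite R ω ∧ Module.Injective R ω ∧ Nonempty
        ((IsLocalRing.ResidueField R →ₗ[R] ω) ≃ₗ[R] IsLocalRing.ResidueField R)) ∧
      Module.Finite R M ∧
      Nonempty (M ⊗[R] (M →ₗ[R] ω) ≃ₗ[R] ω) ∧
      IsEmpty (M ≃ₗ[R] R) ∧ IsEmpty (M ≃ₗ[R] ω) ∧
      (∃ (E : Type u) (_ : AddCommGroup E) (_ : Module R E)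
        (i : M →ₗ[R] E) (p : E →ₗ[R] M),
        Function.Injective i ∧ Function.Surjective p ∧ Function.Exact i p ∧
        ¬ ∃ s : M →ₗ[R] E, ∀ m, p (s m) = m) := by
  refine ⟨Rg k a b, inferInstance, inferInstance, inferInstance, inferInstance,
    Om k (Rg k a b), inferInstance, inferInstance, Md k a b, inferInstance, inferInstance,
    residue_bij, by rw [finrank_R]; ring, max_sq, ⟨?_, om_injective, type_one⟩, ?_,
    ⟨LinearEquiv.ofBijective (evMap k (Rg k a b) (Md k a b))
      ⟨evMap_injective (endo (by omega) (by omega)), evMap_surjective (faithful (by omega))⟩⟩,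
    ⟨fun e => ?_⟩, ⟨fun e => ?_⟩, nonsplit ha hb⟩
  · have : Module.Finite k (Om k (Rg k a b)) :=
      inferInstanceAs (Module.Finite k (Rg k a b →ₗ[k] k))
    exact Module.Finite.of_restrictScalars_finite k _ _
  · exact Module.Finite.of_restrictScalars_finite k _ _
  · have := (e.restrictScalars k).finrank_eq
    rw [finrank_M, finrank_R] at this
    nlinarith
  · have := (e.restrictScalars k).finrank_eq
    rw [finrank_M, finrank_Om] at this
    nlinarith

end concrete

end Pool.Agent.H16.CanDual
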