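import Mathlib

/-!
# Non-nilpotent complex evolution algebras with condition `P`

Full (positive) answer to Q1 of MP_fa30b9_al.

An algebra is given by its product, a bilinear map `μ : V →ₗ[ℂ] V →ₗ[ℂ] V`.

Outline of the proof.
* `Idem.exists_two`: if `L` is an invertible complex matrix of size at least two, then the system
  `x_i ^ 2 = (L x)_i` has a solution with at least two nonzero coordinates. (Nonzero solutions exist
  by the Nullstellensatz, a Nakayama type argument and the global residue functional; if the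
  solution found has a single nonzero coordinate, pass to the quotient and solve one more quadratic
  equation.)
* condition `P` implies that the algebra is commutative and `F V = F F` for every subalgebra `F`.
* the derived series becomes stationary at `0` (and then the algebra is nilpotent) or at a perfect
  evolution algebra, which must be spanned by an idempotent `u`.
* the kernel `W` of multiplication by `u` is a nilpotent ideal; and a nilpotent algebra with
  `F V = F F` for all subalgebras is a one-generated algebra of maximal index plus a part of the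
  annihilator.
-/

set_option autoImplicit false
set_option linter.unusedSectionVars false

namespace Pool.Agent.H16.EvoProof

open Module

section Defs

variable {V W : Type} [AddCommGroup V] [Module ℂ V] [AddCommGroup W] [Module ℂ W]

/-- `b` is a natural basis of the algebra with product `μ`. -/
def IsNaturalBasis {n : ℕ} (μ : V →ₗ[ℂ] V →ₗ[ℂ] V) (b : Basis (Fin n) ℂ V) : Prop :=
  ∀ i j, i ≠ j → μ (b i) (b j) = 0

/-- the algebra with product `μ` is a (finite-dimensional) evolution algebra. -/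
def IsEvolutionAlgebra (μ : V →ₗ[ℂ] V →ₗ[ℂ] V) : Prop :=
  ∃ (n : ℕ) (b : Basis (Fin n) ℂ V), IsNaturalBasis μ b

/-- `F` is a subalgebra: a linear subspace closed under the product. -/
def IsSubalg (μ : V →ₗ[ℂ] V →ₗ[ℂ] V) (F : Submodule ℂ V) : Prop :=
  ∀ x ∈ F, ∀ y ∈ F, μ x y ∈ F

/-- `F` is spanned by a part of a natural basis of the whole algebra. -/
def IsEvolutionSub (μ : V →ₗ[ℂ] V →ₗ[ℂ] V) (F : Submodule ℂ V) : Prop :=
  ∃ (n : ℕ) (b : Basis (Fin n) ℂ V) (s : Set (Fin n)),
    IsNaturalBasis μ b ∧ F = Submodule.span ℂ (b '' s)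

/-- condition `P`: every subalgebra is an evolution subalgebra. -/
def ConditionP (μ : V →ₗ[ℂ] V →ₗ[ℂ] V) : Prop :=
  ∀ F : Submodule ℂ V, IsSubalg μ F → IsEvolutionSub μ F

/-- the powers `E^1 = E`, `E^k = ∑_{i=1}^{k-1} E^i E^{k-i}` (with the junk value `E` at `0`). -/
noncomputable def power (μ : V →ₗ[ℂ] V →ₗ[ℂ] V) : ℕ → Submodule ℂ V
  | 0 => ⊤
  | 1 => ⊤
  | (k + 2) => ⨆ i : Fin (k + 1), Submodule.map₂ μ (power μ (i + 1)) (power μ (k + 1 - i))
termination_by k => k
decreasing_by all_goals omega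

/-- nilpotency -/
def IsNilpotentAlg (μ : V →ₗ[ℂ] V →ₗ[ℂ] V) : Prop := ∃ m, 1 ≤ m ∧ power μ m = ⊥

/-- the index of nilpotency: the least `m ≥ 1` with `E^m = 0` -/
noncomputable def nilIndex (μ : V →ₗ[ℂ] V →ₗ[ℂ] V) : ℕ := sInf {m | 1 ≤ m ∧ power μ m = ⊥}

/-- the class `ZN^s` -/
def MemZN (s : ℕ) (μ : V →ₗ[ℂ] V →ₗ[ℂ] V) : Prop :=
  finrank ℂ V = s ∧ IsEvolutionAlgebra μ ∧ IsNilpotentAlg μ ∧
    ∀ (U : Type) [AddCommGroup U] [Module ℂ U] (ν : U →ₗ[ℂ] U →ₗ[ℂ] U),
      finrank ℂ U = s → IsEvolutionAlgebra ν → IsNilpotentAlg ν → nilIndex ν ≤ nilIndex μ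

/-- direct sum of algebras -/
def dsum (μ : V →ₗ[ℂ] V →ₗ[ℂ] V) (ν : W →ₗ[ℂ] W →ₗ[ℂ] W) :
    (V × W) →ₗ[ℂ] (V × W) →ₗ[ℂ] (V × W) :=
  LinearMap.mk₂ ℂ (fun x y => (μ x.1 y.1, ν x.2 y.2))
    (by intro x x' y; simp) (by intro c x y; simp) (by intro x y y'; simp) (by intro c x y; simp)

/-- isomorphism of algebras -/
def AlgIso (μ : V →ₗ[ℂ] V →ₗ[ℂ] V) (ν : W →ₗ[ℂ] W →ₗ[ℂ] W) : Prop :=
  ∃ φ : V ≃ₗ[ℂ] W, ∀ x y, φ (μ x y) = ν (φ x) (φ y)

/-- `ES_1` -/
def ES1 : ℂ →ₗ[ℂ] ℂ →ₗ[ℂ] ℂ := LinearMap.mul ℂ ℂ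

/-- `C^m` with zero product -/
def zeroAlg (m : ℕ) : (Fin m → ℂ) →ₗ[ℂ] (Fin m → ℂ) →ₗ[ℂ] (Fin m → ℂ) := 0

end Defs

namespace Idem

open MvPolynomial

section T1

variable {ι : Type} [Fintype ι] [DecidableEq ι] (L : Matrix ι ι ℂ)

/-- the linear form attached to a row of the matrix -/
noncomputable def lin (i : ι) : MvPolynomial ι ℂ := ∑ j, C (L i j) * X j

/-- product of powers of the linear forms -/
noncomputable def Lk (k : ι →₀ ℕ) : MvPolynomial ι ℂ := ∏ i, lin L i ^ k i

/-- the exponent `2k+1` -/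
noncomputable def mk (k : ι →₀ ℕ) : ι →₀ ℕ := 2 • k + Finsupp.equivFunOnFinite.symm (fun _ => 1)

theorem lin_degree (i : ι) : (lin L i).totalDegree ≤ 1 := by
  unfold lin
  refine (totalDegree_finsetSum _ _).trans ?_
  refine Finset.sup_le fun j _ => ?_
  refine (totalDegree_mul _ _).trans ?_
  simp [totalDegree_C, totalDegree_X]

theorem Lk_degree (k : ι →₀ ℕ) : (Lk L k).totalDegree ≤ ∑ i, k i := by
  unfold Lk
  refine (totalDegree_finsetProd _ _).trans ?_
  refine Finset.sum_le_sum fun i _ => ?_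
  refine (totalDegree_pow _ _).trans ?_
  calc k i * (lin L i).totalDegree ≤ k i * 1 := Nat.mul_le_mul_left _ (lin_degree L i)
    _ = k i := mul_one _

theorem coeff_zero_of_degree (f : MvPolynomial ι ℂ) (d : ι →₀ ℕ)
    (h : f.totalDegree < ∑ i, d i) : coeff d f = 0 := by
  apply coeff_eq_zero_of_totalDegree_lt
  rwa [← Finsupp.sum_fintype d (fun _ n => n) (by simp)] at h

theorem Lk_add_single (k : ι →₀ ℕ) (i : ι) :
    Lk L (k + Finsupp.single i 1) = lin L i * Lk L k := by
  unfold Lk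
  have : ∀ j : ι, lin L j ^ (k + Finsupp.single i 1 : ι →₀ ℕ) j
      = lin L j ^ k j * (if j = i then lin L j else 1) := by
    intro j
    rw [Finsupp.add_apply, pow_add]
    by_cases h : j = i
    · subst h; simp
    · simp [h]
  rw [Finset.prod_congr rfl (fun j _ => this j), Finset.prod_mul_distrib,
    Finset.prod_ite_eq' Finset.univ i (fun j => lin L j)]
  simp [mul_comm]

theorem sum_mk (k : ι →₀ ℕ) : ∑ i, mk k i = 2 * ∑ i, k i + Fintype.card ι := by
  simp [mk, Finset.sum_add_distrib, Finset.mul_sum]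

theorem mk_add_single (k : ι →₀ ℕ) (i : ι) :
    mk (k + Finsupp.single i 1) = Finsupp.single i 2 + mk k := by
  ext j
  by_cases h : j = i
  · subst h; simp [mk]; ring
  · simp [mk, Ne.symm h]

/-- the global residue functional -/
noncomputable def tau (g : MvPolynomial ι ℂ) : ℂ := ∑ᶠ k : ι →₀ ℕ, coeff (mk k) (g * Lk L k)

theorem tau_support [Nonempty ι] (g : MvPolynomial ι ℂ) :
    (Function.support fun k : ι →₀ ℕ => coeff (mk k) (g * Lk L k)).Finite := by
  refine Set.Finite.subset (Finsupp.finite_of_degree_le g.totalDegree) ?_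
  intro k hk
  simp only [Set.mem_ofPred_eq]
  by_contra hcon
  apply hk
  apply coeff_zero_of_degree
  rw [sum_mk]
  have h1 := (totalDegree_mul g (Lk L k))
  have h2 := Lk_degree L k
  have h3 : k.degree = ∑ i, k i := by
    rw [Finsupp.degree_eq_sum]
  rw [h3] at hcon
  omega

theorem tau_sub [Nonempty ι] (g h : MvPolynomial ι ℂ) : tau L (g - h) = tau L g - tau L h := by
  unfold tau
  rw [← finsum_sub_distrib (tau_support L g) (tau_support L h)]
  refine finsum_congr fun k => ?_
  rw [sub_mul, coeff_sub]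

theorem tau_add [Nonempty ι] (g h : MvPolynomial ι ℂ) : tau L (g + h) = tau L g + tau L h := by
  unfold tau
  rw [← finsum_add_distrib (tau_support L g) (tau_support L h)]
  refine finsum_congr fun k => ?_
  rw [add_mul, coeff_add]

theorem tau_zero : tau L 0 = 0 := by
  unfold tau
  simp

theorem tau_mul_P [Nonempty ι] (g : MvPolynomial ι ℂ) (i : ι) :
    tau L (g * (X i ^ 2 - lin L i)) = 0 := by
  rw [mul_sub, tau_sub, sub_eq_zero]
  unfold tau
  have hinj : Function.Injective (fun k : ι →₀ ℕ => k + Finsupp.single i 1) :=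
    fun a b h => add_right_cancel h
  have h2 : ∀ k : ι →₀ ℕ, coeff (mk k) (g * lin L i * Lk L k) =
      coeff (mk (k + Finsupp.single i 1)) (g * X i ^ 2 * Lk L (k + Finsupp.single i 1)) := by
    intro k
    rw [Lk_add_single, mk_add_single]
    have : g * X i ^ 2 * (lin L i * Lk L k) = X i ^ 2 * (g * lin L i * Lk L k) := by ring
    rw [this, X_pow_eq_monomial, coeff_monomial_mul, one_mul]
  rw [finsum_congr h2]
  rw [← finsum_mem_range (f := fun k => coeff (mk k) (g * X i ^ 2 * Lk L k)) hinj]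
  rw [← finsum_mem_univ (fun k => coeff (mk k) (g * X i ^ 2 * Lk L k))]
  apply finsum_mem_inter_support_eq'
  intro k hk
  simp only [Set.mem_univ, Set.mem_range, true_iff]
  by_contra hcon
  apply hk
  have hki : k i = 0 := by
    by_contra h0
    apply hcon
    refine ⟨k - Finsupp.single i 1, ?_⟩
    apply tsub_add_cancel_of_le
    rw [Finsupp.single_le_iff]
    omega
  have : g * X i ^ 2 * Lk L k = monomial (Finsupp.single i 2) 1 * (g * Lk L k) := by
    rw [← X_pow_eq_monomial]; ring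
  rw [this, coeff_monomial_mul']
  rw [if_neg]
  rw [Finsupp.single_le_iff]
  simp [mk, hki]

theorem tau_prod [Nonempty ι] : tau L (∏ i, X i) = 1 := by
  unfold tau
  have hX : (∏ i, X i : MvPolynomial ι ℂ) =
      monomial (Finsupp.equivFunOnFinite.symm (fun _ => 1)) 1 := by
    rw [monomial_eq]
    simp
  rw [finsum_eq_single _ 0]
  · have h0 : Lk L 0 = 1 := by simp [Lk]
    rw [h0, mul_one, hX]
    simp [mk, coeff_monomial]
  · intro k hk
    rw [hX, mk, add_comm, coeff_monomial_mul, one_mul]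
    apply coeff_zero_of_degree
    have h2 := Lk_degree L k
    have h3 : 0 < ∑ i, k i := by
      by_contra hcon
      apply hk
      ext i
      have := Finset.single_le_sum (f := fun i => k i) (fun _ _ => Nat.zero_le _) (Finset.mem_univ i)
      simp only [Finsupp.coe_zero, Pi.zero_apply]
      omega
    simp only [Finsupp.smul_apply, smul_eq_mul, ← Finset.mul_sum]
    omega

/-- the ideal of the quadratic system -/
noncomputable def II : Ideal (MvPolynomial ι ℂ) :=
  Ideal.span (Set.range fun i => X i ^ 2 - lin L i)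

theorem tau_II [Nonempty ι] (g : MvPolynomial ι ℂ) (hg : g ∈ II L) (a : MvPolynomial ι ℂ) :
    tau L (a * g) = 0 := by
  unfold II at hg
  rw [← Ideal.submodule_span_eq] at hg
  induction hg using Submodule.span_induction generalizing a with
  | mem x h =>
    obtain ⟨i, rfl⟩ := h
    exact tau_mul_P L a i
  | zero => rw [mul_zero]; exact tau_zero L
  | add x y _ _ hx hy => rw [mul_add, tau_add, hx, hy, add_zero]
  | smul b x hx ih =>
    rw [smul_eq_mul, ← mul_assoc]
    exact ih (a * b)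

theorem prod_notMem [Nonempty ι] : (∏ i, X i : MvPolynomial ι ℂ) ∉ II L := by
  intro h
  have h1 := tau_II L _ h 1
  rw [one_mul, tau_prod] at h1
  exact one_ne_zero h1

/-- The nonvanishing part: an invertible quadratic system `x_i^2 = (L x)_i` has a nonzero
solution. -/
theorem exists_ne_zero [Nonempty ι] (hL : IsUnit L) :
    ∃ x : ι → ℂ, x ≠ 0 ∧ ∀ i, x i ^ 2 = ∑ j, L i j * x j := by
  by_contra hcon
  push Not at hcon
  obtain ⟨M, hM⟩ : ∃ M : Matrix ι ι ℂ, M * L = 1 := by
    obtain ⟨u, hu⟩ := hL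
    refine ⟨(u⁻¹ : _), ?_⟩
    rw [← hu]
    simp
  -- the ideal of the origin
  let J : Ideal (MvPolynomial ι ℂ) := Ideal.span (Set.range fun i => X i)
  have hJrad : J ≤ (II L).radical := by
    rw [← vanishingIdeal_zeroLocus_eq_radical (K := ℂ), Ideal.span_le]
    rintro _ ⟨i, rfl⟩
    rw [SetLike.mem_coe, mem_vanishingIdeal_iff]
    intro x hx
    have hx0 : x = 0 := by
      by_contra hne
      obtain ⟨i, hi⟩ := hcon x hne
      apply hi
      have := (mem_zeroLocus_iff.mp hx) (X i ^ 2 - lin L i) (Ideal.subset_span ⟨i, rfl⟩)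
      simp [lin] at this
      exact sub_eq_zero.mp this
    simp [hx0]
  have hJfg : J.FG := IsNoetherian.noetherian J
  obtain ⟨N, hN⟩ := Ideal.exists_pow_le_of_le_radical_of_fg hJrad hJfg
  have hJ2 : J ≤ J * J + II L := by
    rw [Ideal.span_le]
    rintro _ ⟨i, rfl⟩
    rw [SetLike.mem_coe]
    have hXi : (X i : MvPolynomial ι ℂ) = ∑ j, C (M i j) * (X j ^ 2) -
        ∑ j, C (M i j) * (X j ^ 2 - lin L j) := by
      rw [← Finset.sum_sub_distrib]
      have : ∀ j, C (M i j) * (X j ^ 2) - C (M i j) * (X j ^ 2 - lin L j) =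
          ∑ l, C (M i j * L j l) * X l := by
        intro j
        rw [← mul_sub, sub_sub_cancel, lin, Finset.mul_sum]
        refine Finset.sum_congr rfl fun l _ => ?_
        rw [C_mul]; ring
      rw [Finset.sum_congr rfl fun j _ => this j, Finset.sum_comm]
      have h2 : ∀ l, ∑ j, C (M i j * L j l) * (X l : MvPolynomial ι ℂ) =
          C ((1 : Matrix ι ι ℂ) i l) * X l := by
        intro l
        rw [← hM, Matrix.mul_apply, map_sum, Finset.sum_mul]
      rw [Finset.sum_congr rfl fun l _ => h2 l, Finset.sum_eq_single i]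
      · simp
      · intro l _ hl
        rw [Matrix.one_apply_ne (Ne.symm hl)]
        simp
      · simp
    simp only
    rw [hXi]
    refine Submodule.sub_mem _ ?_ ?_
    · refine Submodule.mem_sup_left (Ideal.sum_mem _ fun j _ => ?_)
      refine Ideal.mul_mem_left _ _ ?_
      rw [pow_two]
      exact Ideal.mul_mem_mul (Ideal.subset_span ⟨j, rfl⟩) (Ideal.subset_span ⟨j, rfl⟩)
    · refine Submodule.mem_sup_right (Ideal.sum_mem _ fun j _ => ?_)
      exact Ideal.mul_mem_left _ _ (Ideal.subset_span ⟨j, rfl⟩)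
  have hJk : ∀ k : ℕ, J ≤ J ^ (k + 1) + II L := by
    intro k
    induction k with
    | zero => simp
    | succ k ih =>
      refine hJ2.trans ?_
      refine sup_le ?_ le_sup_right
      calc J * J ≤ J * (J ^ (k + 1) + II L) := Ideal.mul_mono_right ih
        _ ≤ J ^ (k + 1 + 1) + II L := by
          rw [mul_add, pow_succ' J (k + 1)]
          exact sup_le_sup_left Ideal.mul_le_right _
  have hJI : J ≤ II L := by
    refine (hJk N).trans (sup_le ?_ le_rfl)
    exact (Ideal.pow_le_pow_right (Nat.le_succ N)).trans hN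
  apply prod_notMem L
  apply hJI
  obtain ⟨i⟩ := (inferInstance : Nonempty ι)
  rw [← Finset.mul_prod_erase Finset.univ _ (Finset.mem_univ i)]
  exact Ideal.mul_mem_right _ _ (Ideal.subset_span ⟨i, rfl⟩)

theorem exists_root (c d : ℂ) (hc : c ≠ 0) : ∃ t : ℂ, t ≠ 0 ∧ t ^ 2 = c * t + d := by
  obtain ⟨r, hr⟩ := IsAlgClosed.exists_pow_nat_eq (c ^ 2 + 4 * d) (n := 2) (by norm_num)
  by_cases h : (c + r) / 2 = 0
  · refine ⟨(c - r) / 2, ?_, ?_⟩
    · intro h'
      apply hc
      linear_combination h + h'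
    · linear_combination hr / 4
  · exact ⟨(c + r) / 2, h, by linear_combination hr / 4⟩

/-- An invertible quadratic system in at least two unknowns has a solution with at least two
nonzero coordinates. -/
theorem exists_two (hL : IsUnit L) (hcard : 2 ≤ Fintype.card ι) :
    ∃ x : ι → ℂ, (∃ i j, i ≠ j ∧ x i ≠ 0 ∧ x j ≠ 0) ∧ ∀ i, x i ^ 2 = ∑ j, L i j * x j := by
  have hne : Nonempty ι := Fintype.card_pos_iff.mp (by omega)
  obtain ⟨x, hx, hsol⟩ := exists_ne_zero L hL
  by_cases h2 : ∃ i j, i ≠ j ∧ x i ≠ 0 ∧ x j ≠ 0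
  · exact ⟨x, h2, hsol⟩
  push Not at h2
  obtain ⟨i0, hi0⟩ : ∃ i, x i ≠ 0 := by
    by_contra hcon
    push Not at hcon
    exact hx (funext hcon)
  have hother : ∀ j, j ≠ i0 → x j = 0 := fun j hj => h2 i0 j (Ne.symm hj) hi0
  have hsum : ∀ i, x i ^ 2 = L i i0 * x i0 := by
    intro i
    rw [hsol i, Finset.sum_eq_single i0]
    · intro j _ hj
      rw [hother j hj, mul_zero]
    · simp
  have hcol : ∀ i, i ≠ i0 → L i i0 = 0 := by
    intro i hi
    have := hsum i
    rw [hother i hi] at this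
    simp at this
    rcases this with h | h
    · exact h
    · exact absurd h hi0
  have hc : L i0 i0 ≠ 0 := by
    intro h
    have := hsum i0
    rw [h, zero_mul] at this
    exact hi0 (pow_eq_zero_iff (two_ne_zero) |>.mp this)
  let ι' := {i : ι // i ≠ i0}
  let L' : Matrix ι' ι' ℂ := L.submatrix Subtype.val Subtype.val
  have hL' : IsUnit L' := by
    obtain ⟨M, hM⟩ : ∃ M : Matrix ι ι ℂ, L * M = 1 := by
      obtain ⟨u, hu⟩ := hL
      refine ⟨(u⁻¹ : _), ?_⟩
      rw [← hu]
      simp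
    apply IsUnit.of_mul_eq_one (M.submatrix Subtype.val Subtype.val : Matrix ι' ι' ℂ)
    ext i j
    rw [Matrix.mul_apply]
    have h1 : ∑ l : ι, L i.1 l * M l j.1 = (1 : Matrix ι ι ℂ) i.1 j.1 := by
      rw [← hM, Matrix.mul_apply]
    have h3 : ∑ l : ι, L i.1 l * M l j.1 = ∑ l : ι', L i.1 l.1 * M l.1 j.1 := by
      rw [← Finset.add_sum_erase Finset.univ _ (Finset.mem_univ i0), hcol i.1 i.2, zero_mul,
        zero_add]
      exact (Finset.sum_subtype (Finset.univ.erase i0) (by simp) (fun l => L i.1 l * M l j.1))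
    change ∑ l : ι', L i.1 l.1 * M l.1 j.1 = _
    rw [← h3, h1]
    by_cases hij : i = j
    · subst hij; simp
    · rw [Matrix.one_apply_ne hij, Matrix.one_apply_ne (fun h => hij (Subtype.ext h))]
  have hne' : Nonempty ι' := by
    obtain ⟨a, b, hab⟩ := Fintype.exists_pair_of_one_lt_card (α := ι) (by omega)
    by_cases ha : a = i0
    · exact ⟨⟨b, fun hb => hab (ha.trans hb.symm)⟩⟩
    · exact ⟨⟨a, ha⟩⟩
  obtain ⟨y, hy, hysol⟩ := exists_ne_zero L' hL'
  obtain ⟨j0, hj0⟩ : ∃ i, y i ≠ 0 := by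
    by_contra hcon
    push Not at hcon
    exact hy (funext hcon)
  obtain ⟨t, ht, htsol⟩ := exists_root (L i0 i0) (∑ l : ι', L i0 l.1 * y l) hc
  let x' : ι → ℂ := fun i => if h : i = i0 then t else y ⟨i, h⟩
  have hx'0 : x' i0 = t := by simp [x']
  have hx'1 : ∀ i : ι', x' i.1 = y i := by
    intro i
    simp [x', i.2]
  have hs : ∀ i : ι, ∑ j, L i j * x' j = L i i0 * t + ∑ l : ι', L i l.1 * y l := by
    intro i
    rw [← Finset.add_sum_erase Finset.univ _ (Finset.mem_univ i0), hx'0]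
    congr 1
    rw [Finset.sum_subtype (Finset.univ.erase i0) (p := fun j => j ≠ i0) (by simp)
      (fun l => L i l * x' l)]
    exact Finset.sum_congr rfl fun l _ => by rw [hx'1]
  refine ⟨x', ⟨i0, j0.1, Ne.symm j0.2, by rw [hx'0]; exact ht, by rw [hx'1]; exact hj0⟩, ?_⟩
  intro i
  rw [hs i]
  by_cases hi : i = i0
  · subst hi
    rw [hx'0, htsol]
  · rw [hcol i hi, zero_mul, zero_add]
    exact (congrArg (· ^ 2) (hx'1 ⟨i, hi⟩)).trans (hysol ⟨i, hi⟩)

end T1

end Idem

section Basic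

variable {V : Type} [AddCommGroup V] [Module ℂ V] {μ : V →ₗ[ℂ] V →ₗ[ℂ] V}

theorem nat_mul {n : ℕ} {b : Basis (Fin n) ℂ V} (hb : IsNaturalBasis μ b) (i : Fin n) (y : V) :
    μ (b i) y = (b.repr y i) • μ (b i) (b i) := by
  conv_lhs => rw [← b.sum_repr y]
  rw [map_sum, Finset.sum_eq_single i]
  · simp
  · intro j _ hj
    rw [map_smul, hb i j (Ne.symm hj), smul_zero]
  · simp

theorem nat_comm {n : ℕ} {b : Basis (Fin n) ℂ V} (hb : IsNaturalBasis μ b) (x y : V) :
    μ x y = μ y x := by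
  have : μ = μ.flip := by
    refine b.ext fun i => b.ext fun j => ?_
    rw [LinearMap.flip_apply]
    by_cases h : i = j
    · rw [h]
    · rw [hb i j h, hb j i (Ne.symm h)]
  conv_lhs => rw [this]
  rfl

/-- commutative and all subalgebras `F` satisfy `F V = F F` -/
structure Good (μ : V →ₗ[ℂ] V →ₗ[ℂ] V) : Prop where
  comm : ∀ x y, μ x y = μ y x
  ham : ∀ F : Submodule ℂ V, IsSubalg μ F → ∀ x ∈ F, ∀ y, μ x y ∈ Submodule.map₂ μ F F

theorem good_of_P (hP : ConditionP μ) : Good μ := by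
  constructor
  · obtain ⟨n, b, s, hb, -⟩ := hP ⊤ (fun _ _ _ _ => Submodule.mem_top)
    exact nat_comm hb
  · intro F hF x hx y
    obtain ⟨n, b, s, hb, rfl⟩ := hP F hF
    have h : Submodule.span ℂ (b '' s) ≤
        (Submodule.map₂ μ (Submodule.span ℂ (b '' s)) (Submodule.span ℂ (b '' s))).comap
          (μ.flip y) := by
      rw [Submodule.span_le]
      rintro _ ⟨i, hi, rfl⟩
      rw [SetLike.mem_coe, Submodule.mem_comap, LinearMap.flip_apply, nat_mul hb]
      apply Submodule.smul_mem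
      exact Submodule.apply_mem_map₂ _ (Submodule.subset_span ⟨i, hi, rfl⟩)
        (Submodule.subset_span ⟨i, hi, rfl⟩)
    exact h hx

end Basic

section Power

variable {V : Type} [AddCommGroup V] [Module ℂ V] (μ : V →ₗ[ℂ] V →ₗ[ℂ] V)

theorem power_one : power μ 1 = ⊤ := by rw [power]

theorem power_add_two (k : ℕ) : power μ (k + 2) =
    ⨆ i : Fin (k + 1), Submodule.map₂ μ (power μ (i + 1)) (power μ (k + 1 - i)) := by
  rw [power]

theorem mul_mem_power {a b : ℕ} (ha : 1 ≤ a) (hb : 1 ≤ b) {x y : V} (hx : x ∈ power μ a)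
    (hy : y ∈ power μ b) : μ x y ∈ power μ (a + b) := by
  obtain ⟨a, rfl⟩ := Nat.exists_eq_add_of_le' ha
  obtain ⟨b, rfl⟩ := Nat.exists_eq_add_of_le' hb
  have : a + 1 + (b + 1) = (a + b) + 2 := by ring
  rw [this, power_add_two]
  refine Submodule.mem_iSup_of_mem (⟨a, by omega⟩ : Fin (a + b + 1)) ?_
  refine Submodule.apply_mem_map₂ _ hx ?_
  have : a + b + 1 - a = b + 1 := by omega
  simp only
  rw [this]
  exact hy

theorem power_le_iff {k : ℕ} (hk : 2 ≤ k) (Q : Submodule ℂ V) :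
    power μ k ≤ Q ↔ ∀ a b, 1 ≤ a → 1 ≤ b → a + b = k → ∀ x ∈ power μ a, ∀ y ∈ power μ b,
      μ x y ∈ Q := by
  constructor
  · rintro h a b ha hb rfl x hx y hy
    exact h (mul_mem_power μ ha hb hx hy)
  · intro h
    obtain ⟨k, rfl⟩ := Nat.exists_eq_add_of_le' hk
    rw [power_add_two, iSup_le_iff]
    intro i
    rw [Submodule.map₂_le]
    intro x hx y hy
    exact h _ _ (by omega) (by omega) (by omega) x hx y hy

theorem power_succ_le {k : ℕ} (hk : 1 ≤ k) : power μ (k + 1) ≤ power μ k := by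
  induction k using Nat.strong_induction_on with
  | _ k ih =>
    by_cases h1 : k = 1
    · subst h1; rw [power_one]; exact le_top
    · rw [power_le_iff μ (by omega)]
      intro a b ha hb hab x hx y hy
      by_cases ha1 : a = 1
      · subst ha1
        obtain rfl : b = k := by omega
        have hy' : y ∈ power μ (b - 1) := by
          have := ih (b - 1) (by omega) (by omega)
          rw [Nat.sub_add_cancel (by omega)] at this
          exact this hy
        have := mul_mem_power μ (le_refl 1) (by omega) hx hy'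
        rwa [show 1 + (b - 1) = b by omega] at this
      · have hx' : x ∈ power μ (a - 1) := by
          have := ih (a - 1) (by omega) (by omega)
          rw [Nat.sub_add_cancel (by omega)] at this
          exact this hx
        have := mul_mem_power μ (by omega : 1 ≤ a - 1) hb hx' hy
        rwa [show a - 1 + b = k by omega] at this

theorem power_anti {a b : ℕ} (ha : 1 ≤ a) (hab : a ≤ b) : power μ b ≤ power μ a := by
  induction b, hab using Nat.le_induction with
  | base => exact le_rfl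
  | succ c hc ih => exact (power_succ_le μ (by omega)).trans ih

theorem power_le_chain (hcomm : ∀ x y, μ x y = μ y x) (C : ℕ → Submodule ℂ V) (h0 : C 0 = ⊤)
    (hC : ∀ j, ∀ x ∈ C j, ∀ y, μ x y ∈ C (j + 1)) (j : ℕ) :
    power μ (2 ^ j + 1) ≤ C (j + 1) := by
  induction j with
  | zero =>
    rw [power_le_iff μ (by norm_num)]
    intro a b _ _ _ x _ y _
    exact hC 0 x (by rw [h0]; trivial) y
  | succ j ih =>
    have hpos : 1 ≤ 2 ^ j := Nat.one_le_two_pow
    rw [power_le_iff μ (by rw [pow_succ]; omega)]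
    intro a b ha hb hab x hx y hy
    rw [pow_succ] at hab
    rcases le_or_gt (2 ^ j + 1) a with h | h
    · exact hC _ x (ih (power_anti μ (by omega) h hx)) y
    · rw [hcomm]
      exact hC _ y (ih (power_anti μ (by omega) (by omega) hy)) x

end Power

section Ann

variable {V : Type} [AddCommGroup V] [Module ℂ V] (μ : V →ₗ[ℂ] V →ₗ[ℂ] V)

/-- the upper annihilating series -/
noncomputable def annS : ℕ → Submodule ℂ V
  | 0 => ⊥
  | (j + 1) => ⨅ y : V, (annS j).comap (μ.flip y)

theorem mem_annS_succ (j : ℕ) (x : V) : x ∈ annS μ (j + 1) ↔ ∀ y, μ x y ∈ annS μ j := by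
  rw [annS]
  simp [Submodule.mem_iInf]

theorem annS_le_succ (j : ℕ) : annS μ j ≤ annS μ (j + 1) := by
  induction j with
  | zero => rw [annS]; exact bot_le
  | succ j ih =>
    intro x hx
    rw [mem_annS_succ] at hx ⊢
    exact fun y => ih (hx y)

theorem annS_mono {i j : ℕ} (h : i ≤ j) : annS μ i ≤ annS μ j :=
  monotone_nat_of_le_succ (annS_le_succ μ) h

theorem annS_stab {j : ℕ} (h : annS μ j = annS μ (j + 1)) (i : ℕ) : annS μ (j + i) = annS μ j := by
  induction i with
  | zero => rfl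
  | succ i ih =>
    rw [← add_assoc]
    ext x
    rw [mem_annS_succ, ih, h, mem_annS_succ, ← h]

/-- right powers -/
noncomputable def rpow : ℕ → Submodule ℂ V
  | 0 => ⊤
  | (j + 1) => Submodule.map₂ μ (rpow j) ⊤

theorem rpow_le_power (j : ℕ) : rpow μ j ≤ power μ (j + 1) := by
  induction j with
  | zero => rw [power_one]; exact le_top
  | succ j ih =>
    rw [rpow, Submodule.map₂_le]
    intro x hx y _
    exact mul_mem_power μ (by omega) (le_refl 1) (ih hx) (by rw [power_one]; trivial)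

theorem annS_top_of_nilp (h : IsNilpotentAlg μ) : ∃ t, annS μ t = ⊤ := by
  obtain ⟨m, hm, hm0⟩ := h
  obtain ⟨m, rfl⟩ := Nat.exists_eq_add_of_le' hm
  have h0 : rpow μ m = ⊥ := by
    rw [eq_bot_iff, ← hm0]; exact rpow_le_power μ m
  have key : ∀ i, i ≤ m → rpow μ (m - i) ≤ annS μ i := by
    intro i
    induction i with
    | zero => intro _; rw [Nat.sub_zero, h0]; exact bot_le
    | succ i ih =>
      intro hi x hx
      rw [mem_annS_succ]
      intro y
      apply ih (by omega)
      have : m - i = (m - (i + 1)) + 1 := by omega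
      rw [this, rpow]
      exact Submodule.apply_mem_map₂ _ hx trivial
  refine ⟨m, ?_⟩
  have := key m le_rfl
  rw [Nat.sub_self, rpow] at this
  exact eq_top_iff.mpr this

theorem annS_finrank [FiniteDimensional ℂ V] (h : ∃ t, annS μ t = ⊤) (i j : ℕ) :
    annS μ (i + j) = ⊤ ∨ finrank ℂ (annS μ i) + j ≤ finrank ℂ (annS μ (i + j)) := by
  induction j with
  | zero => right; simp
  | succ j ih =>
    rcases ih with h1 | h1
    · left
      rw [eq_top_iff, ← h1]
      exact annS_mono μ (by omega)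
    · by_cases hst : annS μ (i + j) = annS μ (i + j + 1)
      · left
        obtain ⟨t, ht⟩ := h
        have h2 := annS_stab μ hst t
        rw [eq_top_iff, ← add_assoc, ← hst, ← h2, ← ht]
        exact annS_mono μ (by omega)
      · right
        have hlt : annS μ (i + j) < annS μ (i + j + 1) :=
          lt_of_le_of_ne (annS_le_succ μ _) hst
        have := Submodule.finrank_lt_finrank_of_lt hlt
        rw [← add_assoc, ← add_assoc]
        omega

theorem annS_finrank_top [FiniteDimensional ℂ V] (h : ∃ t, annS μ t = ⊤) :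
    annS μ (finrank ℂ V) = ⊤ := by
  rcases annS_finrank μ h 0 (finrank ℂ V) with h1 | h1
  · simpa using h1
  · rw [zero_add] at h1
    have h2 : finrank ℂ V ≤ finrank ℂ (annS μ (finrank ℂ V)) := le_trans (by omega) h1
    exact Submodule.eq_top_of_finrank_eq (le_antisymm (Submodule.finrank_le _) h2)

theorem power_bot_of_annS_top (hcomm : ∀ x y, μ x y = μ y x) {t : ℕ} (h : annS μ (t + 1) = ⊤) :
    power μ (2 ^ t + 1) = ⊥ := by
  rw [eq_bot_iff]
  have := power_le_chain μ hcomm (fun j => annS μ (t + 1 - j)) (by simpa using h) ?_ t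
  · simpa [annS] using this
  · intro j x hx y
    by_cases hj : j ≤ t
    · have h1 : t + 1 - j = (t + 1 - (j + 1)) + 1 := by omega
      rw [h1, mem_annS_succ] at hx
      exact hx y
    · have h1 : t + 1 - j = 0 := by omega
      rw [h1, annS, Submodule.mem_bot] at hx
      rw [hx]
      simp

theorem comm_of_evolution (h : IsEvolutionAlgebra μ) : ∀ x y, μ x y = μ y x := by
  obtain ⟨n, b, hb⟩ := h
  exact nat_comm hb

theorem fd_of_evolution (h : IsEvolutionAlgebra μ) : FiniteDimensional ℂ V := by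
  obtain ⟨n, b, hb⟩ := h
  exact Module.Finite.of_basis b

theorem power_bound (hcomm : ∀ x y, μ x y = μ y x) [FiniteDimensional ℂ V] {s : ℕ}
    (hs : finrank ℂ V = s + 1) (h : IsNilpotentAlg μ) : power μ (2 ^ s + 1) = ⊥ := by
  apply power_bot_of_annS_top μ hcomm
  rw [← hs]
  exact annS_finrank_top μ (annS_top_of_nilp μ h)

theorem nilIndex_le {m : ℕ} (hm : 1 ≤ m) (h : power μ m = ⊥) : nilIndex μ ≤ m :=
  Nat.sInf_le ⟨hm, h⟩

theorem lt_nilIndex (hn : IsNilpotentAlg μ) {m : ℕ} (h : power μ m ≠ ⊥) :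
    m < nilIndex μ := by
  by_contra hcon
  push Not at hcon
  have h1 : nilIndex μ ∈ {m | 1 ≤ m ∧ power μ m = ⊥} := Nat.sInf_mem hn
  apply h
  rw [eq_bot_iff, ← h1.2]
  exact power_anti μ h1.1 hcon

end Ann

section EN

/-- The algebra `EN_s`, `e_i e_i = e_{i+1}`, on `C^s`. -/
noncomputable def EN (s : ℕ) : (Fin s → ℂ) →ₗ[ℂ] (Fin s → ℂ) →ₗ[ℂ] (Fin s → ℂ) :=
  LinearMap.mk₂ ℂ (fun x y k => if h : 0 < k.val then
      x ⟨k.val - 1, by omega⟩ * y ⟨k.val - 1, by omega⟩ else 0)
    (by intro x x' y; ext k; by_cases h : 0 < k.val <;> simp [h, add_mul])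
    (by intro c x y; ext k; by_cases h : 0 < k.val <;> simp [h, mul_assoc])
    (by intro x y y'; ext k; by_cases h : 0 < k.val <;> simp [h, mul_add])
    (by intro c x y; ext k; by_cases h : 0 < k.val <;> simp [h, mul_left_comm])

theorem EN_apply (s : ℕ) (x y : Fin s → ℂ) (k : Fin s) : EN s x y k =
    if h : 0 < k.val then x ⟨k.val - 1, by omega⟩ * y ⟨k.val - 1, by omega⟩ else 0 := rfl

theorem EN_evolution (s : ℕ) : IsEvolutionAlgebra (EN s) := by
  refine ⟨s, Pi.basisFun ℂ (Fin s), ?_⟩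
  intro i j hij
  ext k
  rw [EN_apply]
  by_cases h : 0 < k.val
  · simp only [h, dite_true, Pi.basisFun_apply, Pi.single_apply, Pi.zero_apply]
    by_cases h1 : (⟨k.val - 1, by omega⟩ : Fin s) = i
    · subst h1
      simp [hij]
    · simp [h1]
  · simp [h]

theorem EN_nilp (s : ℕ) : IsNilpotentAlg (EN s) := by
  refine ⟨2 ^ s + 1, Nat.le_add_left 1 _, ?_⟩
  rw [eq_bot_iff]
  refine (power_le_chain (EN s) (comm_of_evolution _ (EN_evolution s))
    (fun j => ⨅ k : {k : Fin s // k.val < j}, LinearMap.ker (LinearMap.proj k.1)) ?_ ?_ s).trans ?_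
  · simp
  · intro j x hx y
    simp only [Submodule.mem_iInf, LinearMap.mem_ker, LinearMap.proj_apply] at hx ⊢
    rintro ⟨k, hk⟩
    rw [EN_apply]
    simp only at hk ⊢
    split_ifs with h
    · rw [hx ⟨⟨k.val - 1, by omega⟩, by simp only; omega⟩, zero_mul]
    · rfl
  · intro x hx
    simp only [Submodule.mem_iInf, LinearMap.mem_ker, LinearMap.proj_apply] at hx
    rw [Submodule.mem_bot]
    ext k
    exact hx ⟨k, by omega⟩

theorem EN_power (s j : ℕ) (hj : j < s) :
    (Pi.single (⟨j, hj⟩ : Fin s) 1 : Fin s → ℂ) ∈ power (EN s) (2 ^ j) := by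
  induction j with
  | zero => rw [pow_zero, power_one]; trivial
  | succ j ih =>
    have h1 := ih (by omega)
    have h2 := mul_mem_power (EN s) Nat.one_le_two_pow Nat.one_le_two_pow h1 h1
    have h3 : EN s (Pi.single (⟨j, by omega⟩ : Fin s) 1) (Pi.single (⟨j, by omega⟩ : Fin s) 1) =
        (Pi.single (⟨j + 1, hj⟩ : Fin s) 1 : Fin s → ℂ) := by
      ext k
      rw [EN_apply]
      simp only [Pi.single_apply]
      by_cases hk : k.val = j + 1
      · have : k = ⟨j + 1, hj⟩ := Fin.ext hk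
        subst this
        simp
      · have h4 : k ≠ ⟨j + 1, hj⟩ := fun h => hk (by rw [h])
        rw [if_neg h4]
        split_ifs with h5 h6
        · rw [Fin.ext_iff] at h6
          simp only at h6
          omega
        · simp
        · rfl
    rw [h3] at h2
    rwa [show 2 ^ (j + 1) = 2 ^ j + 2 ^ j by ring]

end EN

section ZN

variable {V : Type} [AddCommGroup V] [Module ℂ V] (μ : V →ₗ[ℂ] V →ₗ[ℂ] V)

theorem power_ne_bot_of_memZN {s : ℕ} (h : MemZN (s + 1) μ) : power μ (2 ^ s) ≠ ⊥ := by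
  intro h0
  obtain ⟨h1, h2, h3, h4⟩ := h
  have h5 := h4 (Fin (s + 1) → ℂ) (EN (s + 1)) (by simp) (EN_evolution _) (EN_nilp _)
  have h6 := nilIndex_le μ Nat.one_le_two_pow h0
  have h7 : 2 ^ s < nilIndex (EN (s + 1)) := by
    apply lt_nilIndex _ (EN_nilp _)
    intro h8
    have h9 := EN_power (s + 1) s (by omega)
    rw [h8, Submodule.mem_bot] at h9
    have := congrFun h9 ⟨s, by omega⟩
    simp at this
  omega

theorem memZN_of {s : ℕ} (h1 : finrank ℂ V = s + 1) (h2 : IsEvolutionAlgebra μ)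
    (h3 : IsNilpotentAlg μ) (h4 : power μ (2 ^ s) ≠ ⊥) : MemZN (s + 1) μ := by
  refine ⟨h1, h2, h3, ?_⟩
  intro U _ _ ν g1 g2 g3
  have := fd_of_evolution ν g2
  have g4 := power_bound ν (comm_of_evolution ν g2) g1 g3
  have g5 := nilIndex_le ν (Nat.le_add_left 1 _) g4
  have g6 := lt_nilIndex μ h3 h4
  omega

/-- in an algebra of class `ZN^s`, `s ≥ 2`, the annihilator is contained in the square. -/
theorem ann_le_sq {s : ℕ} (h : MemZN (s + 2) μ) (x : V) (hx : ∀ y, μ x y = 0) :
    x ∈ Submodule.map₂ μ ⊤ ⊤ := by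
  have h0 := power_ne_bot_of_memZN μ h
  obtain ⟨h1, h2, h3, -⟩ := h
  have hfd := fd_of_evolution μ h2
  have hcomm := comm_of_evolution μ h2
  have htop := annS_top_of_nilp μ h3
  -- the series is not the whole algebra at step `s+1`
  have hne : annS μ (s + 1) ≠ ⊤ := by
    intro h5
    have h6 := power_bot_of_annS_top μ hcomm h5
    apply h0
    rw [eq_bot_iff, ← h6]
    have : 1 ≤ 2 ^ s := Nat.one_le_two_pow
    refine power_anti μ (by omega) ?_
    rw [pow_succ]
    omega
  have hlt : finrank ℂ (annS μ (s + 1)) < s + 2 := by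
    rw [← h1]
    exact Submodule.finrank_lt hne
  have hr : finrank ℂ (annS μ 1) ≤ 1 := by
    rcases annS_finrank μ htop 1 s with h7 | h7
    · rw [add_comm] at h7; exact absurd h7 hne
    · rw [add_comm 1 s] at h7
      omega
  -- step 2 is different from step 1
  have h12 : annS μ 1 ≠ annS μ 2 := by
    intro h8
    have h9 := annS_stab μ h8 (s + 1)
    have h10 : annS μ (1 + (s + 1)) = ⊤ := by
      rw [add_comm, ← h1]
      exact annS_finrank_top μ htop
    rw [h9] at h10
    apply hne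
    rw [eq_top_iff, ← h10]
    exact annS_mono μ (by omega)
  obtain ⟨z, hz2, hz1⟩ : ∃ z ∈ annS μ 2, z ∉ annS μ 1 := by
    by_contra hcon
    push Not at hcon
    exact h12 (le_antisymm (annS_le_succ μ 1) hcon)
  obtain ⟨y, hy⟩ : ∃ y, μ z y ≠ 0 := by
    by_contra hcon
    push Not at hcon
    apply hz1
    rw [mem_annS_succ]
    intro y
    rw [hcon y]
    exact Submodule.zero_mem _
  have hw : μ z y ∈ annS μ 1 := (mem_annS_succ μ 1 z).mp hz2 y
  have hxm : x ∈ annS μ 1 := by
    rw [mem_annS_succ]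
    intro y
    rw [hx y]
    exact Submodule.zero_mem _
  have hspan : annS μ 1 = Submodule.span ℂ {μ z y} := by
    symm
    apply Submodule.eq_of_le_of_finrank_le
    · rw [Submodule.span_singleton_le_iff_mem]
      exact hw
    · rw [finrank_span_singleton hy]
      exact hr
  rw [hspan, Submodule.mem_span_singleton] at hxm
  obtain ⟨c, rfl⟩ := hxm
  exact Submodule.smul_mem _ _ (Submodule.apply_mem_map₂ _ trivial trivial)

end ZN

section Der

variable {V : Type} [AddCommGroup V] [Module ℂ V] (μ : V →ₗ[ℂ] V →ₗ[ℂ] V) (N : Submodule ℂ V)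

/-- derived series of a subalgebra -/
noncomputable def der : ℕ → Submodule ℂ V
  | 0 => N
  | (j + 1) => Submodule.map₂ μ (der j) (der j)

variable {μ N}

theorem der_succ_le (hN : IsSubalg μ N) (j : ℕ) : der μ N (j + 1) ≤ der μ N j := by
  induction j with
  | zero =>
    rw [der, der, Submodule.map₂_le]
    exact hN
  | succ j ih =>
    rw [der]
    conv_rhs => rw [der]
    exact Submodule.map₂_le_map₂ ih ih

theorem der_anti (hN : IsSubalg μ N) {i j : ℕ} (h : i ≤ j) : der μ N j ≤ der μ N i :=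
  antitone_nat_of_succ_le (der_succ_le hN) h

theorem der_sq {j : ℕ} {x y : V} (hx : x ∈ der μ N j) (hy : y ∈ der μ N j) :
    μ x y ∈ der μ N (j + 1) := by
  rw [der]
  exact Submodule.apply_mem_map₂ _ hx hy

theorem der_isSubalg (hN : IsSubalg μ N) (j : ℕ) : IsSubalg μ (der μ N j) :=
  fun _ hx _ hy => der_succ_le hN j (der_sq hx hy)

theorem der_mul (hG : Good μ) (hN : IsSubalg μ N) {j : ℕ} {x : V} (hx : x ∈ der μ N j) (y : V) :
    μ x y ∈ der μ N (j + 1) := by
  rw [der]
  exact hG.ham _ (der_isSubalg hN j) x hx y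

theorem der_mul' (hG : Good μ) (hN : IsSubalg μ N) {j : ℕ} {x : V} (hx : x ∈ der μ N j) (y : V) :
    μ y x ∈ der μ N (j + 1) := by
  rw [hG.comm]
  exact der_mul hG hN hx y

theorem der_stab {j : ℕ} (h : der μ N (j + 1) = der μ N j) (i : ℕ) :
    der μ N (j + i) = der μ N j := by
  induction i with
  | zero => rfl
  | succ i ih =>
    rw [← add_assoc, der, ih, ← der, h]

theorem star (hG : Good μ) (hN : IsSubalg μ N) {j : ℕ} {y : V} (hy : μ y y ∈ der μ N j) (z : V) :
    ∃ c : ℂ, μ y z - c • μ y y ∈ der μ N (j + 1) := by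
  set F : Submodule ℂ V := Submodule.span ℂ {y} ⊔ der μ N j with hF
  have hprod : ∀ x ∈ F, ∀ x' ∈ F, μ x x' ∈ Submodule.span ℂ {μ y y} ⊔ der μ N (j + 1) := by
    intro x hx x' hx'
    rw [hF, Submodule.mem_sup] at hx hx'
    obtain ⟨a, ha, d, hd, rfl⟩ := hx
    obtain ⟨a', ha', d', hd', rfl⟩ := hx'
    rw [Submodule.mem_span_singleton] at ha ha'
    obtain ⟨a, rfl⟩ := ha
    obtain ⟨a', rfl⟩ := ha'
    have h1 : μ (a • y + d) (a' • y + d') =
        (a * a') • μ y y + (a • μ y d' + μ d (a' • y) + μ d d') := by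
      simp only [map_add, map_smul, LinearMap.add_apply, LinearMap.smul_apply, smul_add, smul_smul]
      rw [mul_comm a' a]
      abel
    rw [h1]
    refine Submodule.add_mem_sup ?_ ?_
    · exact Submodule.smul_mem _ _ (Submodule.mem_span_singleton_self _)
    · refine Submodule.add_mem _ (Submodule.add_mem _ ?_ ?_) ?_
      · exact Submodule.smul_mem _ _ (der_mul' hG hN hd' y)
      · exact der_mul hG hN hd _
      · exact der_mul hG hN hd _
  have hle : Submodule.span ℂ {μ y y} ⊔ der μ N (j + 1) ≤ F := by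
    refine sup_le ?_ ((der_succ_le hN j).trans le_sup_right)
    rw [Submodule.span_singleton_le_iff_mem]
    exact Submodule.mem_sup_right hy
  have hsub : IsSubalg μ F := fun x hx x' hx' => hle (hprod x hx x' hx')
  have h2 : μ y z ∈ Submodule.span ℂ {μ y y} ⊔ der μ N (j + 1) := by
    have h3 := hG.ham F hsub y (Submodule.mem_sup_left (Submodule.mem_span_singleton_self _)) z
    have h4 : Submodule.map₂ μ F F ≤ Submodule.span ℂ {μ y y} ⊔ der μ N (j + 1) := by
      rw [Submodule.map₂_le]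
      exact hprod
    exact h4 h3
  rw [Submodule.mem_sup] at h2
  obtain ⟨a, ha, d, hd, had⟩ := h2
  rw [Submodule.mem_span_singleton] at ha
  obtain ⟨a, rfl⟩ := ha
  refine ⟨a, ?_⟩
  rw [← had, add_sub_cancel_left]
  exact hd

theorem polar (hcomm : ∀ x y, μ x y = μ y x) {Q R : Submodule ℂ V} (h : ∀ x ∈ R, μ x x ∈ Q) {x y : V}
    (hx : x ∈ R) (hy : y ∈ R) : μ x y ∈ Q := by
  have h1 : (2 : ℂ) • μ x y = μ (x + y) (x + y) - μ x x - μ y y := by
    simp only [map_add, LinearMap.add_apply]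
    rw [hcomm y x, two_smul]
    abel
  have h2 : (2 : ℂ) • μ x y ∈ Q := by
    rw [h1]
    exact Submodule.sub_mem _ (Submodule.sub_mem _ (h _ (Submodule.add_mem _ hx hy)) (h x hx)) (h y hy)
  have h3 := Submodule.smul_mem Q (2⁻¹ : ℂ) h2
  rwa [smul_smul, inv_mul_cancel₀ (two_ne_zero), one_smul] at h3

end Der

section Nilp

variable {V : Type} [AddCommGroup V] [Module ℂ V] {μ : V →ₗ[ℂ] V →ₗ[ℂ] V} {N : Submodule ℂ V}

theorem finrank_sup_singleton [FiniteDimensional ℂ V] {D : Submodule ℂ V} {y : V} (hy : y ∉ D) :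
    finrank ℂ (Submodule.span ℂ {y} ⊔ D : Submodule ℂ V) = finrank ℂ D + 1 := by
  have h1 := Submodule.finrank_sup_add_finrank_inf_eq (Submodule.span ℂ {y}) D
  have h2 : Submodule.span ℂ {y} ⊓ D = ⊥ := by
    rw [← disjoint_iff, disjoint_comm, Submodule.disjoint_span_singleton']
    · exact hy
    · rintro rfl
      exact hy (Submodule.zero_mem _)
  have h3 : y ≠ 0 := by
    rintro rfl
    exact hy (Submodule.zero_mem _)
  rw [h2, finrank_bot, finrank_span_singleton h3] at h1
  omega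

theorem sq_sub (hcomm : ∀ x y, μ x y = μ y x) (z w : V) (c : ℂ) :
    μ (z - c • w) (z - c • w) = μ z z - c • μ z w - c • μ (z - c • w) w := by
  simp only [map_sub, map_smul, LinearMap.sub_apply, LinearMap.smul_apply, smul_sub, smul_smul]
  rw [hcomm w z]

theorem step_span (hG : Good μ) (hN : IsSubalg μ N) {j : ℕ} {y : V}
    (hD : der μ N j ≤ Submodule.span ℂ {y} ⊔ der μ N (j + 1)) :
    der μ N (j + 1) ≤ Submodule.span ℂ {μ y y} ⊔ der μ N (j + 2) := by
  rw [der, Submodule.map₂_le]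
  intro x hx x' hx'
  have h1 := hD hx
  have h1' := hD hx'
  rw [Submodule.mem_sup] at h1 h1'
  obtain ⟨a, ha, d, hd, rfl⟩ := h1
  obtain ⟨a', ha', d', hd', rfl⟩ := h1'
  rw [Submodule.mem_span_singleton] at ha ha'
  obtain ⟨a, rfl⟩ := ha
  obtain ⟨a', rfl⟩ := ha'
  have h1 : μ (a • y + d) (a' • y + d') =
      (a * a') • μ y y + (a • μ y d' + μ d (a' • y) + μ d d') := by
    simp only [map_add, map_smul, LinearMap.add_apply, LinearMap.smul_apply, smul_add, smul_smul]
    rw [mul_comm a' a]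
    abel
  rw [h1]
  refine Submodule.add_mem_sup ?_ ?_
  · exact Submodule.smul_mem _ _ (Submodule.mem_span_singleton_self _)
  · refine Submodule.add_mem _ (Submodule.add_mem _ ?_ ?_) ?_
    · exact Submodule.smul_mem _ _ (der_mul' hG hN hd' y)
    · exact der_mul hG hN hd _
    · exact der_mul hG hN hd _

theorem first_step (hG : Good μ) (hN : IsSubalg μ N) {x : V} (hx : x ∈ N)
    (hq : μ x x ∉ der μ N 2) : der μ N 1 ≤ Submodule.span ℂ {μ x x} ⊔ der μ N 2 := by
  have hx0 : x ∈ der μ N 0 := hx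
  rw [der, Submodule.map₂_le]
  intro z hz z' hz'
  refine polar hG.comm (Q := Submodule.span ℂ {μ x x} ⊔ der μ N 2) (R := der μ N 0) ?_ hz hz'
  clear hz hz' z z'
  intro z hz
  have hxx : μ x x ∈ der μ N 1 := der_sq hx0 hx0
  obtain ⟨c, hc⟩ := star hG hN hxx z
  obtain ⟨e, he, hec⟩ : ∃ e : ℂ, e * e = 1 ∧ 1 + e * c ≠ 0 := by
    by_cases h : 1 + c = 0
    · refine ⟨-1, by ring, ?_⟩
      have : c = -1 := by linear_combination h
      rw [this]; norm_num
    · exact ⟨1, by ring, by rwa [one_mul]⟩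
  set w := x + e • z with hw
  have hw0 : w ∈ der μ N 0 := Submodule.add_mem _ hx0 (Submodule.smul_mem _ _ hz)
  obtain ⟨c', hc'⟩ := star hG hN (der_sq hw0 hw0) x
  have e1 : μ w x = μ x x + e • μ x z := by
    rw [hw]; simp only [map_add, map_smul, LinearMap.add_apply, LinearMap.smul_apply]
    rw [hG.comm z x]
  have e2 : μ w w = μ x x + (2 * e) • μ x z + μ z z := by
    rw [hw]
    simp only [map_add, map_smul, LinearMap.add_apply, LinearMap.smul_apply, smul_add, smul_smul]
    rw [hG.comm z x, he, one_smul, two_mul, add_smul]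
    abel
  have hc'0 : c' ≠ 0 := by
    intro h0
    rw [h0, zero_smul, sub_zero, e1] at hc'
    have h3 : (1 + e * c) • μ x x ∈ der μ N 2 := by
      have h4 : (1 + e * c) • μ x x = (μ x x + e • μ x z) - e • (μ x z - c • μ x x) := by
        module
      rw [h4]
      exact Submodule.sub_mem _ hc' (Submodule.smul_mem _ _ hc)
    exact hq ((Submodule.smul_mem_iff _ hec).mp h3)
  have h5 : c' • μ z z = ((1 + e * c) - c' * (1 + 2 * e * c)) • μ x x +
      ((e - 2 * c' * e) • (μ x z - c • μ x x) - (μ w x - c' • μ w w)) := by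
    rw [e1, e2]
    module
  rw [← Submodule.smul_mem_iff _ hc'0, h5]
  refine Submodule.add_mem_sup ?_ ?_
  · exact Submodule.smul_mem _ _ (Submodule.mem_span_singleton_self _)
  · exact Submodule.sub_mem _ (Submodule.smul_mem _ _ hc) hc'

theorem nilp_structure [FiniteDimensional ℂ V] (hG : Good μ) (hN : IsSubalg μ N) (k : ℕ)
    (hk : der μ N (k + 2) = ⊥) (hk' : der μ N (k + 1) ≠ ⊥) :
    ∃ (F K : Submodule ℂ V) (y : ℕ → V), F ≤ N ∧ K ≤ N ∧ F ⊓ K = ⊥ ∧ F ⊔ K = N ∧ IsSubalg μ F ∧
      (∀ x ∈ K, ∀ z, μ x z = 0) ∧ finrank ℂ F = k + 2 ∧ (∀ j, y j ∈ F) ∧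
      (∀ j, y (j + 1) = μ (y j) (y j)) ∧ y (k + 1) ≠ 0 := by
  have hstrict : ∀ j, j ≤ k + 1 → der μ N (j + 1) ≠ der μ N j := by
    intro j hj h
    have h1 := der_stab h (k + 2 - j)
    rw [show j + (k + 2 - j) = k + 2 by omega, hk] at h1
    apply hk'
    rw [eq_bot_iff, h1]
    exact der_anti hN hj
  obtain ⟨x, hx, hq⟩ : ∃ x ∈ N, μ x x ∉ der μ N 2 := by
    by_contra hcon
    push Not at hcon
    apply hstrict 1 (by omega)
    apply le_antisymm (der_succ_le hN 1)
    conv_lhs => rw [der]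
    rw [Submodule.map₂_le]
    intro z hz z' hz'
    exact polar hG.comm hcon hz hz'
  set y : ℕ → V := fun j => (fun v => μ v v)^[j] x with hy
  have hy0 : y 0 = x := rfl
  have hys : ∀ j, y (j + 1) = μ (y j) (y j) := fun j => Function.iterate_succ_apply' _ j x
  have hyD : ∀ j, y j ∈ der μ N j := by
    intro j
    induction j with
    | zero => exact hx
    | succ j ih => rw [hys]; exact der_sq ih ih
  have hD : ∀ j, der μ N (j + 1) ≤ Submodule.span ℂ {y (j + 1)} ⊔ der μ N (j + 2) := by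
    intro j
    induction j with
    | zero => rw [hys, hy0]; exact first_step hG hN hx hq
    | succ j ih => rw [hys (j + 1)]; exact step_span hG hN ih
  have hnot1 : ∀ j, j ≤ k → y (j + 1) ∉ der μ N (j + 2) := by
    intro j hj h
    apply hstrict (j + 1) (by omega)
    apply le_antisymm (der_succ_le hN _)
    refine (hD j).trans (sup_le ?_ le_rfl)
    rw [Submodule.span_singleton_le_iff_mem]
    exact h
  have hnot0 : x ∉ der μ N 1 := by
    intro h
    apply hnot1 0 (by omega)
    rw [hys]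
    exact der_sq h h
  have hDeq : ∀ j, der μ N (j + 1) = Submodule.span ℂ {y (j + 1)} ⊔ der μ N (j + 2) := by
    intro j
    apply le_antisymm (hD j)
    refine sup_le ?_ (der_succ_le hN _)
    rw [Submodule.span_singleton_le_iff_mem]
    exact hyD _
  have hfin : ∀ i, i ≤ k + 1 → finrank ℂ (der μ N (k + 2 - i)) = i := by
    intro i
    induction i with
    | zero => intro _; rw [Nat.sub_zero, hk, finrank_bot]
    | succ i ih =>
      intro hi
      have h1 : k + 2 - (i + 1) = (k - i) + 1 := by omega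
      rw [h1, hDeq, finrank_sup_singleton (hnot1 _ (by omega))]
      have h2 : k - i + 2 = k + 2 - i := by omega
      rw [h2, ih (by omega)]
  have hfin1 : finrank ℂ (der μ N 1) = k + 1 := by
    have := hfin (k + 1) le_rfl
    rwa [show k + 2 - (k + 1) = 1 by omega] at this
  set F : Submodule ℂ V := Submodule.span ℂ {x} ⊔ der μ N 1 with hF
  have hFN : F ≤ N := by
    refine sup_le ?_ (der_succ_le hN 0)
    rw [Submodule.span_singleton_le_iff_mem]
    exact hx
  have hDF : der μ N 1 ≤ F := le_sup_right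
  have hFsub : IsSubalg μ F := by
    intro a ha b hb
    exact hDF (der_sq (j := 0) (hFN ha) (hFN hb))
  have hyF : ∀ j, y j ∈ F := by
    intro j
    rcases Nat.eq_zero_or_pos j with rfl | hj
    · exact Submodule.mem_sup_left (Submodule.mem_span_singleton_self _)
    · exact hDF (der_anti hN hj (hyD j))
  have hFfin : finrank ℂ F = k + 2 := by
    rw [hF, finrank_sup_singleton hnot0, hfin1]
  have hylast : y (k + 1) ≠ 0 := by
    intro h
    apply hnot1 k le_rfl
    rw [h]
    exact Submodule.zero_mem _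
  have hclaim : ∀ j, j ≤ k + 1 → ∀ z ∈ N, ∃ f ∈ F, μ (z - f) (z - f) ∈ der μ N (j + 1) := by
    intro j
    induction j with
    | zero =>
      intro _ z hz
      refine ⟨0, Submodule.zero_mem _, ?_⟩
      rw [sub_zero]
      exact der_sq (j := 0) hz hz
    | succ j ih =>
      intro hj z hz
      obtain ⟨f, hf, hzf⟩ := ih (by omega) z hz
      set z' := z - f with hz'
      have h1 : μ z' (y j) ∈ der μ N (j + 1) := by
        obtain ⟨c, hc⟩ := star hG hN hzf (y j)
        have h2 : μ z' (y j) = (μ z' (y j) - c • μ z' z') + c • μ z' z' := by abel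
        rw [h2]
        exact Submodule.add_mem _ (der_succ_le hN _ hc) (Submodule.smul_mem _ _ hzf)
      have h2 := hD j h1
      rw [Submodule.mem_sup] at h2
      obtain ⟨a, ha, d, hd, hcd⟩ := h2
      rw [Submodule.mem_span_singleton] at ha
      obtain ⟨c, rfl⟩ := ha
      set z'' := z' - c • y j with hz''
      have h3 : μ z'' (y j) = d := by
        rw [hz'', map_sub, LinearMap.sub_apply, map_smul, LinearMap.smul_apply, ← hys, ← hcd]
        abel
      have h4 : μ z'' z'' ∈ der μ N (j + 1) := by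
        have h5 : μ z'' z'' = μ z' z' - c • μ z' (y j) - c • d := by
          rw [← h3]
          exact sq_sub hG.comm z' (y j) c
        rw [h5]
        exact Submodule.sub_mem _ (Submodule.sub_mem _ hzf (Submodule.smul_mem _ _ h1))
          (Submodule.smul_mem _ _ (der_succ_le hN _ hd))
      have h5 := hD j h4
      rw [Submodule.mem_sup] at h5
      obtain ⟨a', ha', d', hd', hcd'⟩ := h5
      rw [Submodule.mem_span_singleton] at ha'
      obtain ⟨c', rfl⟩ := ha'
      have h6 : c' = 0 := by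
        by_contra hc'
        obtain ⟨t, ht⟩ := IsAlgClosed.exists_pow_nat_eq (-(c'⁻¹)) (n := 2) (by norm_num)
        have ht' : t * t * c' = -1 := by
          rw [← pow_two, ht]
          field_simp
        set w := y j + t • z'' with hw
        have h7 : μ w w = (2 * t) • d + (t * t) • d' := by
          have h8 : μ w w = y (j + 1) + (2 * t) • μ z'' (y j) + (t * t) • μ z'' z'' := by
            rw [hw]
            simp only [map_add, map_smul, LinearMap.add_apply, LinearMap.smul_apply, smul_add,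
              smul_smul]
            rw [hG.comm (y j) z'', hys, two_mul, add_smul]
            abel
          rw [h8, h3, ← hcd', smul_add, smul_smul, ht']
          module
        have h9 : μ w w ∈ der μ N (j + 2) := by
          rw [h7]
          exact Submodule.add_mem _ (Submodule.smul_mem _ _ hd) (Submodule.smul_mem _ _ hd')
        obtain ⟨c₂, hc₂⟩ := star hG hN h9 (y j)
        have h10 : μ w (y j) ∈ der μ N (j + 2) := by
          have h11 : μ w (y j) = (μ w (y j) - c₂ • μ w w) + c₂ • μ w w := by abel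
          rw [h11]
          exact Submodule.add_mem _ (der_succ_le hN _ hc₂) (Submodule.smul_mem _ _ h9)
        have h12 : μ w (y j) = y (j + 1) + t • d := by
          rw [hw, map_add, LinearMap.add_apply, map_smul, LinearMap.smul_apply, h3, hys]
        rw [h12] at h10
        have h13 : y (j + 1) ∈ der μ N (j + 2) := by
          have h14 : y (j + 1) = (y (j + 1) + t • d) - t • d := by abel
          rw [h14]
          exact Submodule.sub_mem _ h10 (Submodule.smul_mem _ _ hd)
        exact hnot1 j (by omega) h13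
      refine ⟨f + c • y j, Submodule.add_mem _ hf (Submodule.smul_mem _ _ (hyF j)), ?_⟩
      have h7 : z - (f + c • y j) = z'' := by rw [hz'', hz']; abel
      rw [h7, ← hcd', h6, zero_smul, zero_add]
      exact hd'
  have hdecomp : ∀ z ∈ N, ∃ f ∈ F, z - f ∈ N ⊓ LinearMap.ker μ := by
    intro z hz
    obtain ⟨f, hf, hzf⟩ := hclaim (k + 1) le_rfl z hz
    refine ⟨f, hf, Submodule.sub_mem _ hz (hFN hf), LinearMap.mem_ker.mpr ?_⟩
    ext w
    obtain ⟨c, hc⟩ := star hG hN hzf w
    have h1 : der μ N (k + 1 + 1 + 1) = ⊥ := by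
      rw [eq_bot_iff, ← hk]
      exact der_anti hN (by omega)
    rw [h1, Submodule.mem_bot] at hc
    rw [show k + 1 + 1 = k + 2 by ring, hk, Submodule.mem_bot] at hzf
    rw [hzf, smul_zero, sub_zero] at hc
    rw [hc]
    rfl
  obtain ⟨C', hC'⟩ := exists_isCompl (F ⊓ (N ⊓ LinearMap.ker μ))
  refine ⟨F, C' ⊓ (N ⊓ LinearMap.ker μ), y, hFN, inf_le_right.trans inf_le_left, ?_, ?_, hFsub, ?_,
    hFfin, hyF, hys, hylast⟩
  · rw [eq_bot_iff, ← hC'.inf_eq_bot]
    exact le_inf (le_inf inf_le_left (inf_le_right.trans inf_le_right))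
      (inf_le_right.trans inf_le_left)
  · apply le_antisymm
    · exact sup_le hFN (inf_le_right.trans inf_le_left)
    · intro z hz
      obtain ⟨f, hf, hzf⟩ := hdecomp z hz
      have h1 : z = f + (z - f) := by abel
      rw [h1]
      refine Submodule.add_mem _ (Submodule.mem_sup_left hf) ?_
      have h2 : (F ⊓ (N ⊓ LinearMap.ker μ)) ⊔ (C' ⊓ (N ⊓ LinearMap.ker μ)) =
          N ⊓ LinearMap.ker μ := by
        rw [← sup_inf_assoc_of_le C' (inf_le_right : F ⊓ (N ⊓ LinearMap.ker μ) ≤ _),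
          hC'.sup_eq_top, top_inf_eq]
      rw [← h2] at hzf
      exact (sup_le_sup inf_le_left le_rfl : (F ⊓ (N ⊓ LinearMap.ker μ)) ⊔
        (C' ⊓ (N ⊓ LinearMap.ker μ)) ≤ F ⊔ (C' ⊓ (N ⊓ LinearMap.ker μ))) hzf
  · intro x hx z
    have := hx.2.2
    rw [SetLike.mem_coe, LinearMap.mem_ker] at this
    rw [this]
    rfl

end Nilp

section Perfect

variable {V : Type} [AddCommGroup V] [Module ℂ V] {μ : V →ₗ[ℂ] V →ₗ[ℂ] V}

/-- A nonzero subalgebra `D = D D` of an algebra with condition `P` is spanned by an idempotent. -/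
theorem perfect_one_dim (hP : ConditionP μ) {D : Submodule ℂ V} (hD : IsSubalg μ D)
    (hDD : D ≤ Submodule.map₂ μ D D) (hne : D ≠ ⊥) :
    ∃ u, u ≠ 0 ∧ μ u u = u ∧ D = Submodule.span ℂ {u} := by
  classical
  have hG := good_of_P hP
  obtain ⟨n, b, s, hb, hDs⟩ := hP D hD
  have hsD : ∀ i : s, b i ∈ D := by
    intro i
    rw [hDs]
    exact Submodule.subset_span ⟨i, i.2, rfl⟩
  -- the squares of the basis vectors span `D`
  have hspan : D ≤ Submodule.span ℂ (Set.range fun i : s => μ (b i) (b i)) := by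
    refine hDD.trans ?_
    conv_lhs => rw [hDs]
    rw [Submodule.map₂_span_span, Submodule.span_le]
    rintro _ ⟨_, ⟨i, hi, rfl⟩, _, ⟨j, hj, rfl⟩, rfl⟩
    by_cases hij : i = j
    · subst hij
      exact Submodule.subset_span ⟨⟨i, hi⟩, rfl⟩
    · change μ (b i) (b j) ∈ _
      rw [hb i j hij]
      exact Submodule.zero_mem _
  have hC : ∀ j : s, ∃ c : s → ℂ, ∑ i, c i • μ (b i) (b i) = b j := by
    intro j
    exact (Submodule.mem_span_range_iff_exists_fun ℂ).mp (hspan (hsD j))
  choose C hC using hC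
  let A : Matrix s s ℂ := fun i l => b.repr (μ (b i) (b i)) l
  have hCA : (Matrix.of C) * A = 1 := by
    ext j l
    rw [Matrix.mul_apply]
    have h1 : ∑ i, C j i * A i l = b.repr (∑ i, C j i • μ (b i) (b i)) l := by
      rw [map_sum, Finsupp.finsetSum_apply]
      refine Finset.sum_congr rfl fun i _ => ?_
      rw [map_smul, Finsupp.smul_apply, smul_eq_mul]
    change ∑ i, C j i * A i l = _
    rw [h1, hC j, Module.Basis.repr_self, Matrix.one_apply, Finsupp.single_apply]
    simp only [Subtype.ext_iff]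
  have hL : IsUnit ((Matrix.of C).transpose : Matrix s s ℂ) := by
    rw [Matrix.isUnit_transpose]
    exact IsUnit.of_mul_eq_one A hCA
  have hidem : ∀ x : s → ℂ, (∀ i, x i ^ 2 = ∑ j, (Matrix.of C).transpose i j * x j) →
      μ (∑ i, x i • b i) (∑ i, x i • b i) = ∑ i, x i • b i := by
    intro x hx
    have h1 : μ (∑ i, x i • b (i : Fin n)) (∑ i, x i • b (i : Fin n)) =
        ∑ i, (x i ^ 2) • μ (b (i : Fin n)) (b (i : Fin n)) := by
      rw [map_sum]
      refine Finset.sum_congr rfl fun i _ => ?_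
      rw [map_sum, LinearMap.sum_apply, Finset.sum_eq_single i]
      · rw [map_smul, map_smul, LinearMap.smul_apply, smul_smul, pow_two]
      · intro j _ hj
        rw [map_smul, map_smul, LinearMap.smul_apply, hb j i (fun h => hj (Subtype.ext h)),
          smul_zero, smul_zero]
      · simp
    rw [h1]
    have h2 : ∀ i, (x i ^ 2) • μ (b (i : Fin n)) (b (i : Fin n)) =
        ∑ j, x j • (C j i • μ (b (i : Fin n)) (b (i : Fin n))) := by
      intro i
      rw [hx i, Finset.sum_smul]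
      refine Finset.sum_congr rfl fun j _ => ?_
      rw [smul_smul, Matrix.transpose_apply, Matrix.of_apply, mul_comm]
    rw [Finset.sum_congr rfl fun i _ => h2 i, Finset.sum_comm]
    refine Finset.sum_congr rfl fun j _ => ?_
    rw [← Finset.smul_sum, hC j]
  have hli : LinearIndependent ℂ (fun i : s => b i) := b.linearIndependent.comp _ Subtype.val_injective
  have hmemD : ∀ x : s → ℂ, ∑ i, x i • b (i : Fin n) ∈ D :=
    fun x => Submodule.sum_mem _ fun i _ => Submodule.smul_mem _ _ (hsD i)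
  have hne_s : Nonempty s := by
    by_contra hcon
    rw [not_nonempty_iff, Set.isEmpty_coe_sort] at hcon
    apply hne
    rw [hDs, hcon, Set.image_empty, Submodule.span_empty]
  have hcard : ¬ 2 ≤ Fintype.card s := by
    intro hcard
    obtain ⟨x, ⟨i1, i2, hi12, hx1, hx2⟩, hx⟩ := Idem.exists_two _ hL hcard
    set v := ∑ i, x i • b (i : Fin n) with hv
    have hvv : μ v v = v := hidem x hx
    have hsub : IsSubalg μ (Submodule.span ℂ {v}) := by
      intro a ha b hb
      rw [Submodule.mem_span_singleton] at ha hb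
      obtain ⟨a, rfl⟩ := ha
      obtain ⟨b, rfl⟩ := hb
      rw [map_smul, map_smul, LinearMap.smul_apply, hvv]
      exact Submodule.smul_mem _ _ (Submodule.smul_mem _ _ (Submodule.mem_span_singleton_self _))
    have hvb : ∀ i : s, μ v (b i) = x i • μ (b i) (b i) := by
      intro i
      rw [hv, map_sum, LinearMap.sum_apply, Finset.sum_eq_single i]
      · rw [map_smul, LinearMap.smul_apply]
      · intro j _ hj
        rw [map_smul, LinearMap.smul_apply, hb j i (fun h => hj (Subtype.ext h)), smul_zero]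
      · simp
    have hin : ∀ i : s, x i ≠ 0 → ∃ c : ℂ, μ (b i) (b i) = c • v := by
      intro i hi
      have h1 := hG.ham _ hsub v (Submodule.mem_span_singleton_self _) (b i)
      have h2 : Submodule.map₂ μ (Submodule.span ℂ {v}) (Submodule.span ℂ {v}) ≤
          Submodule.span ℂ {v} := by
        rw [Submodule.map₂_le]
        exact hsub
      have h3 := h2 h1
      rw [hvb, Submodule.smul_mem_iff _ hi, Submodule.mem_span_singleton] at h3
      obtain ⟨c, hc⟩ := h3
      exact ⟨c, hc.symm⟩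
    obtain ⟨c1, hc1⟩ := hin i1 hx1
    obtain ⟨c2, hc2⟩ := hin i2 hx2
    have hAC : A * (Matrix.of C) = 1 := mul_eq_one_comm.mp hCA
    have hrow : ∀ (i : s) (c : ℂ), μ (b i) (b i) = c • v → ∀ l : s,
        (1 : Matrix s s ℂ) i l = c * ∑ m : s, b.repr v m * C m l := by
      intro i c hc l
      rw [← hAC, Matrix.mul_apply, Finset.mul_sum]
      refine Finset.sum_congr rfl fun m _ => ?_
      change b.repr (μ (b i) (b i)) m * C m l = _
      rw [hc, map_smul, Finsupp.smul_apply, smul_eq_mul, mul_assoc]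
    have e1 := hrow i1 c1 hc1 i1
    have e2 := hrow i2 c2 hc2 i1
    have e3 := hrow i2 c2 hc2 i2
    rw [Matrix.one_apply_eq] at e1 e3
    rw [Matrix.one_apply_ne (Ne.symm hi12)] at e2
    rcases mul_eq_zero.mp e2.symm with h | h
    · rw [h, zero_mul] at e3
      exact one_ne_zero e3
    · rw [h, mul_zero] at e1
      exact one_ne_zero e1
  obtain ⟨x, hx0, hx⟩ := Idem.exists_ne_zero _ hL
  refine ⟨∑ i, x i • b (i : Fin n), ?_, hidem x hx, ?_⟩
  · intro h0
    apply hx0
    ext i
    exact Fintype.linearIndependent_iff.mp hli x h0 i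
  · have hcard1 : Fintype.card s = 1 := by
      have : 0 < Fintype.card s := Fintype.card_pos_iff.mpr hne_s
      omega
    have hv0 : ∑ i, x i • b (i : Fin n) ≠ 0 := by
      intro h0
      apply hx0
      ext i
      exact Fintype.linearIndependent_iff.mp hli x h0 i
    have hfd : FiniteDimensional ℂ V := Module.Finite.of_basis b
    symm
    apply Submodule.eq_of_le_of_finrank_le
    · rw [Submodule.span_singleton_le_iff_mem]
      exact hmemD x
    · rw [finrank_span_singleton hv0, hDs]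
      have h1 : b '' s = Set.range (fun i : s => b i) := by
        ext v
        simp
      rw [h1, finrank_span_eq_card hli, hcard1]

end Perfect

section Peirce

variable {V : Type} [AddCommGroup V] [Module ℂ V] {μ : V →ₗ[ℂ] V →ₗ[ℂ] V}

theorem der_mono {N N' : Submodule ℂ V} (h : N ≤ N') (j : ℕ) : der μ N j ≤ der μ N' j := by
  induction j with
  | zero => exact h
  | succ j ih => exact Submodule.map₂_le_map₂ ih ih

theorem peirce [FiniteDimensional ℂ V] (hP : ConditionP μ) (hnil : ¬ IsNilpotentAlg μ) :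
    ∃ (u : V) (W : Submodule ℂ V) (m : ℕ), u ≠ 0 ∧ μ u u = u ∧
      IsCompl (Submodule.span ℂ {u}) W ∧ IsSubalg μ W ∧ (∀ w ∈ W, μ u w = 0) ∧ der μ W m = ⊥ := by
  have hG := good_of_P hP
  have htop : IsSubalg μ ⊤ := fun _ _ _ _ => Submodule.mem_top
  obtain ⟨k, hk⟩ : ∃ k, der μ ⊤ (k + 1) = der μ ⊤ k := by
    have h1 := (monotone_stabilizes_iff_artinian (R := ℂ) (M := V)).mpr inferInstance
      ⟨fun j => OrderDual.toDual (der μ ⊤ j), fun i j hij => der_anti htop hij⟩
    obtain ⟨k, hk⟩ := h1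
    exact ⟨k, (hk (k + 1) (by omega)).symm⟩
  have hne : der μ ⊤ k ≠ ⊥ := by
    intro h
    apply hnil
    refine ⟨2 ^ k + 1, Nat.le_add_left 1 _, ?_⟩
    rw [eq_bot_iff, ← h, ← hk]
    exact power_le_chain μ hG.comm (der μ ⊤) rfl (fun j x hx y => der_mul hG htop hx y) k
  obtain ⟨u, hu0, huu, hDu⟩ := perfect_one_dim hP (der_isSubalg htop k)
    (by rw [← der, hk]) hne
  have hukD : ∀ j, j ≤ k → u ∈ der μ ⊤ j := by
    intro j hj
    apply der_anti htop hj
    rw [hDu]
    exact Submodule.mem_span_singleton_self _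
  have hu : ∀ y, ∃ c : ℂ, μ u y = c • u := by
    intro y
    have h1 := der_mul hG htop (hukD k le_rfl) y
    rw [hk, hDu, Submodule.mem_span_singleton] at h1
    obtain ⟨c, hc⟩ := h1
    exact ⟨c, hc.symm⟩
  set W : Submodule ℂ V := LinearMap.ker (μ u) with hW
  have hWk : W ⊓ Submodule.span ℂ {u} = ⊥ := by
    rw [eq_bot_iff]
    rintro x ⟨hx1, hx2⟩
    rw [SetLike.mem_coe, Submodule.mem_span_singleton] at hx2
    obtain ⟨c, rfl⟩ := hx2
    have h1 : μ u (c • u) = 0 := hx1
    rw [map_smul, huu] at h1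
    rw [h1]
    exact Submodule.zero_mem _
  have hclaim : ∀ i, i ≤ k → IsSubalg μ (W ⊓ der μ ⊤ (k - i)) := by
    intro i
    induction i with
    | zero =>
      intro _ x hx y _
      rw [Nat.sub_zero, hDu, hWk, Submodule.mem_bot] at hx
      rw [hx, map_zero]
      exact Submodule.zero_mem _
    | succ i ih =>
      intro hi
      obtain ⟨j, hj, hj1⟩ : ∃ j, k - (i + 1) = j ∧ k - i = j + 1 := ⟨_, rfl, by omega⟩
      have hjk : j + 1 ≤ k := by omega
      have ih' := ih (by omega)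
      rw [hj1] at ih'
      rw [hj]
      have key : ∀ x ∈ W ⊓ der μ ⊤ j, μ x x ∈ W := by
        intro x hx
        obtain ⟨l, hl⟩ := hu (μ x x)
        have hux : μ u x = 0 := hx.1
        have hxxD : μ x x ∈ der μ ⊤ (j + 1) := der_sq hx.2 hx.2
        by_cases hl0 : l = 0
        · change μ u (μ x x) = 0
          rw [hl, hl0, zero_smul]
        · exfalso
          obtain ⟨t, ht⟩ := IsAlgClosed.exists_pow_nat_eq (-l) (n := 2) (by norm_num)
          have ht0 : t ≠ 0 := by
            rintro rfl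
            apply hl0
            have : (0 : ℂ) ^ 2 = 0 := by norm_num
            rw [this] at ht
            linear_combination ht
          set x' := μ x x - l • u with hx'
          have hx'W : x' ∈ W ⊓ der μ ⊤ (j + 1) := by
            constructor
            · change μ u x' = 0
              rw [hx', map_sub, map_smul, huu, hl, sub_self]
            · exact Submodule.sub_mem _ hxxD (Submodule.smul_mem _ _ (hukD _ hjk))
          set z := t • u + x with hz
          have hzz : μ z z = x' := by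
            rw [hz, hx']
            simp only [map_add, map_smul, LinearMap.add_apply, LinearMap.smul_apply, smul_add,
              smul_smul]
            rw [hG.comm x u, hux, huu, ← pow_two, ht]
            module
          set W' := W ⊓ der μ ⊤ (j + 1) with hW'
          have hW'm : ∀ d ∈ W', ∀ y, μ d y ∈ W' := by
            intro d hd y
            have h1 := hG.ham W' ih' d hd y
            have h2 : Submodule.map₂ μ W' W' ≤ W' := by
              rw [Submodule.map₂_le]; exact ih'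
            exact h2 h1
          have hprod : ∀ a ∈ Submodule.span ℂ {z} ⊔ W', ∀ b ∈ Submodule.span ℂ {z} ⊔ W',
              μ a b ∈ W' := by
            intro a ha b hb
            rw [Submodule.mem_sup] at ha hb
            obtain ⟨a, ha, d, hd, rfl⟩ := ha
            obtain ⟨b, hb, d', hd', rfl⟩ := hb
            rw [Submodule.mem_span_singleton] at ha hb
            obtain ⟨a, rfl⟩ := ha
            obtain ⟨b, rfl⟩ := hb
            have hexp : μ (a • z + d) (b • z + d') =
                μ (a • z) (b • z) + μ d (b • z) + (μ d' (a • z) + μ d d') := by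
              rw [hG.comm d' (a • z)]
              simp only [map_add, LinearMap.add_apply]
            rw [hexp]
            refine Submodule.add_mem _ (Submodule.add_mem _ ?_ (hW'm d hd _))
              (Submodule.add_mem _ (hW'm d' hd' _) (hW'm d hd _))
            rw [map_smul, map_smul, LinearMap.smul_apply, hzz]
            exact Submodule.smul_mem _ _ (Submodule.smul_mem _ _ hx'W)
          have hsub : IsSubalg μ (Submodule.span ℂ {z} ⊔ W') :=
            fun a ha b hb => Submodule.mem_sup_right (hprod a ha b hb)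
          have h1 := hG.ham _ hsub z
            (Submodule.mem_sup_left (Submodule.mem_span_singleton_self _)) u
          have h2 : Submodule.map₂ μ (Submodule.span ℂ {z} ⊔ W') (Submodule.span ℂ {z} ⊔ W') ≤ W' := by
            rw [Submodule.map₂_le]; exact hprod
          have h3 : μ z u ∈ W := (h2 h1).1
          have h4 : μ z u = t • u := by
            rw [hz, map_add, LinearMap.add_apply, map_smul, LinearMap.smul_apply, huu,
              hG.comm x u, hux, add_zero]
          rw [h4] at h3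
          have h5 : μ u (t • u) = 0 := h3
          rw [map_smul, huu] at h5
          rcases smul_eq_zero.mp h5 with h | h
          · exact ht0 h
          · exact hu0 h
      intro x hx y hy
      refine ⟨polar hG.comm key hx hy, ?_⟩
      exact der_isSubalg htop j x hx.2 y hy.2
  have hWsub : IsSubalg μ W := by
    have := hclaim k le_rfl
    rw [Nat.sub_self] at this
    have h0 : der μ (⊤ : Submodule ℂ V) 0 = ⊤ := rfl
    rwa [h0, inf_top_eq] at this
  refine ⟨u, W, k, hu0, huu, ⟨?_, ?_⟩, hWsub, fun w hw => hw, ?_⟩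
  · rw [disjoint_comm, disjoint_iff]
    exact hWk
  · rw [codisjoint_iff, eq_top_iff]
    intro x _
    obtain ⟨c, hc⟩ := hu x
    have h1 : x = c • u + (x - c • u) := by abel
    rw [h1]
    refine Submodule.add_mem_sup (Submodule.smul_mem _ _ (Submodule.mem_span_singleton_self _)) ?_
    change μ u (x - c • u) = 0
    rw [map_sub, map_smul, huu, hc, sub_self]
  · rw [eq_bot_iff, ← hWk, ← hDu]
    refine le_inf ?_ (der_mono le_top k)
    exact der_anti (i := 0) hWsub (Nat.zero_le k)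

end Peirce

section Restr

variable {V : Type} [AddCommGroup V] [Module ℂ V]

/-- the product restricted to a subalgebra -/
def restr (μ : V →ₗ[ℂ] V →ₗ[ℂ] V) (F : Submodule ℂ V) (hF : IsSubalg μ F) :
    F →ₗ[ℂ] F →ₗ[ℂ] F :=
  LinearMap.mk₂ ℂ (fun x y => ⟨μ x y, hF x x.2 y y.2⟩)
    (by intro x x' y; ext; simp) (by intro c x y; ext; simp)
    (by intro x y y'; ext; simp) (by intro c x y; ext; simp)

variable {μ : V →ₗ[ℂ] V →ₗ[ℂ] V} {F : Submodule ℂ V} (hF : IsSubalg μ F)

@[simp] theorem restr_apply (x y : F) : (restr μ F hF x y : V) = μ x y := rfl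

theorem restr_evolution (h : IsEvolutionSub μ F) : IsEvolutionAlgebra (restr μ F hF) := by
  classical
  obtain ⟨n, b, s, hb, hFs⟩ := h
  have hli : LinearIndependent ℂ (fun i : s => b i) :=
    b.linearIndependent.comp _ Subtype.val_injective
  have h1 : F = Submodule.span ℂ (Set.range (fun i : s => b i)) := by
    rw [hFs]
    congr 1
    ext v
    simp
  let B : Basis s ℂ F := (Basis.span hli).map (LinearEquiv.ofEq _ _ h1.symm)
  have hB : ∀ i : s, (B i : V) = b i := by
    intro i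
    simp [B]
  let e := Fintype.equivFin s
  refine ⟨Fintype.card s, B.reindex e, ?_⟩
  intro i j hij
  apply Subtype.ext
  rw [restr_apply, Basis.reindex_apply, Basis.reindex_apply, hB, hB]
  apply hb
  intro h
  apply hij
  exact e.symm.injective (Subtype.ext h)

theorem restr_nilp {N : Submodule ℂ V} (hG : Good μ) (hN : IsSubalg μ N) (hFN : F ≤ N) {m : ℕ}
    (hm : der μ N m = ⊥) : IsNilpotentAlg (restr μ F hF) := by
  refine ⟨2 ^ m + 1, Nat.le_add_left 1 _, ?_⟩
  rw [eq_bot_iff]
  refine (power_le_chain (restr μ F hF) ?_ (fun j => (der μ N j).comap F.subtype) ?_ ?_ m).trans ?_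
  · intro x y
    apply Subtype.ext
    rw [restr_apply, restr_apply, hG.comm]
  · rw [eq_top_iff]
    intro x _
    exact hFN x.2
  · intro j x hx y
    exact der_mul hG hN (show (x : V) ∈ der μ N j from hx) (y : V)
  · intro x hx
    have h1 : (x : V) ∈ der μ N (m + 1) := hx
    have h2 := der_succ_le hN m h1
    rw [hm, Submodule.mem_bot] at h2
    rw [Submodule.mem_bot]
    exact Subtype.ext h2

theorem restr_power {y : ℕ → V} (hy : ∀ j, y j ∈ F) (hys : ∀ j, y (j + 1) = μ (y j) (y j))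
    (j : ℕ) : (⟨y j, hy j⟩ : F) ∈ power (restr μ F hF) (2 ^ j) := by
  induction j with
  | zero => rw [pow_zero, power_one]; trivial
  | succ j ih =>
    have h1 := mul_mem_power (restr μ F hF) Nat.one_le_two_pow Nat.one_le_two_pow ih ih
    have h2 : restr μ F hF ⟨y j, hy j⟩ ⟨y j, hy j⟩ = ⟨y (j + 1), hy (j + 1)⟩ := by
      apply Subtype.ext
      exact (hys j).symm
    rw [h2] at h1
    rwa [show 2 ^ (j + 1) = 2 ^ j + 2 ^ j by ring]

end Restr

section Iso

variable {V : Type} [AddCommGroup V] [Module ℂ V] [FiniteDimensional ℂ V]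
variable {μ : V →ₗ[ℂ] V →ₗ[ℂ] V}

theorem AlgIso.symm' {V W : Type} [AddCommGroup V] [Module ℂ V] [AddCommGroup W] [Module ℂ W]
    {μ : V →ₗ[ℂ] V →ₗ[ℂ] V} {ν : W →ₗ[ℂ] W →ₗ[ℂ] W} (h : AlgIso μ ν) : AlgIso ν μ := by
  obtain ⟨φ, hφ⟩ := h
  refine ⟨φ.symm, fun x y => ?_⟩
  apply φ.injective
  rw [hφ]
  simp

theorem iso_three (hcomm : ∀ x y, μ x y = μ y x) {u : V} (hu0 : u ≠ 0) (huu : μ u u = u)
    {W F K : Submodule ℂ V} (hc : IsCompl (Submodule.span ℂ {u}) W) (huW : ∀ w ∈ W, μ u w = 0)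
    (hFW : F ≤ W) (hKW : K ≤ W) (hFK : F ⊓ K = ⊥) (hFK' : F ⊔ K = W) (hF : IsSubalg μ F)
    (hK : ∀ x ∈ K, ∀ z, μ x z = 0) :
    AlgIso μ (dsum ES1 (dsum (restr μ F hF) (zeroAlg (finrank ℂ V - finrank ℂ F - 1)))) := by
  have hdim : finrank ℂ V = 1 + (finrank ℂ F + finrank ℂ K) := by
    have h1 := Submodule.finrank_add_eq_of_isCompl hc
    have h2 := Submodule.finrank_sup_add_finrank_inf_eq F K
    rw [hFK, finrank_bot, hFK'] at h2
    rw [finrank_span_singleton hu0] at h1
    omega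
  have hm : finrank ℂ V - finrank ℂ F - 1 = finrank ℂ K := by omega
  rw [hm]
  let e : (Fin (finrank ℂ K) → ℂ) ≃ₗ[ℂ] K := LinearEquiv.ofFinrankEq _ _ (by simp)
  let ψ : (ℂ × (F × (Fin (finrank ℂ K) → ℂ))) →ₗ[ℂ] V :=
    LinearMap.coprod (LinearMap.toSpanSingleton ℂ V u)
      (LinearMap.coprod F.subtype (K.subtype ∘ₗ e.toLinearMap))
  have hψ : ∀ a f v, ψ (a, (f, v)) = a • u + ((f : V) + (e v : V)) := by
    intro a f v
    simp [ψ]
  have hinj : Function.Injective ψ := by
    rw [← LinearMap.ker_eq_bot, eq_bot_iff]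
    rintro ⟨a, f, v⟩ h
    rw [LinearMap.mem_ker, hψ] at h
    have h1 : (f : V) + (e v : V) ∈ W := Submodule.add_mem _ (hFW f.2) (hKW (e v).2)
    have h2 : a • u ∈ Submodule.span ℂ {u} ⊓ W := by
      refine ⟨Submodule.smul_mem _ _ (Submodule.mem_span_singleton_self _), ?_⟩
      have : a • u = -((f : V) + (e v : V)) := eq_neg_of_add_eq_zero_left h
      rw [this]
      exact Submodule.neg_mem _ h1
    rw [hc.inf_eq_bot, Submodule.mem_bot] at h2
    rw [h2, zero_add] at h
    have ha : a = 0 := by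
      rcases smul_eq_zero.mp h2 with h3 | h3
      · exact h3
      · exact absurd h3 hu0
    have hf : (f : V) ∈ F ⊓ K := by
      refine ⟨f.2, ?_⟩
      have : (f : V) = -(e v : V) := eq_neg_of_add_eq_zero_left h
      rw [this]
      exact Submodule.neg_mem _ (e v).2
    rw [hFK, Submodule.mem_bot] at hf
    rw [hf, zero_add] at h
    have hv : v = 0 := by
      have h4 : e v = 0 := Subtype.ext h
      exact e.map_eq_zero_iff.mp h4
    have hf' : f = 0 := Subtype.ext hf
    rw [Submodule.mem_bot, ha, hf', hv]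
    rfl
  have hfr : finrank ℂ (ℂ × (F × (Fin (finrank ℂ K) → ℂ))) = finrank ℂ V := by
    rw [Module.finrank_prod, Module.finrank_prod, Module.finrank_self, Module.finrank_fin_fun, hdim]
  let φ := LinearMap.linearEquivOfInjective ψ hinj hfr
  have hφ : ∀ x, φ x = ψ x := LinearMap.linearEquivOfInjective_apply hinj hfr
  apply AlgIso.symm'
  refine ⟨φ, ?_⟩
  rintro ⟨a, f, v⟩ ⟨a', f', v'⟩
  rw [hφ, hφ, hφ]
  have h0 : dsum ES1 (dsum (restr μ F hF) (zeroAlg (finrank ℂ K))) (a, (f, v)) (a', (f', v')) =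
      (a * a', (restr μ F hF f f', 0)) := rfl
  rw [h0, hψ, hψ, hψ, map_zero]
  have k1 : ∀ z, μ (e v : V) z = 0 := hK _ (e v).2
  have k2 : ∀ z, μ z (e v' : V) = 0 := fun z => by rw [hcomm]; exact hK _ (e v').2 z
  have k3 : μ u (f' : V) = 0 := huW _ (hFW f'.2)
  have k4 : μ (f : V) u = 0 := by rw [hcomm]; exact huW _ (hFW f.2)
  simp only [map_add, map_smul, LinearMap.add_apply, LinearMap.smul_apply, k1, k2, k3, k4,
    huu, restr_apply, smul_zero, add_zero, zero_add, smul_smul, Submodule.coe_zero]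
  congr 2
  exact mul_comm _ _

theorem iso_two (hcomm : ∀ x y, μ x y = μ y x) {u : V} (hu0 : u ≠ 0) (huu : μ u u = u)
    {W : Submodule ℂ V} (hc : IsCompl (Submodule.span ℂ {u}) W)
    (hK : ∀ x ∈ W, ∀ z, μ x z = 0) :
    AlgIso μ (dsum ES1 (zeroAlg (finrank ℂ V - 1))) := by
  have hdim : finrank ℂ V = 1 + finrank ℂ W := by
    have h1 := Submodule.finrank_add_eq_of_isCompl hc
    rw [finrank_span_singleton hu0] at h1
    omega
  have hm : finrank ℂ V - 1 = finrank ℂ W := by omega
  rw [hm]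
  let e : (Fin (finrank ℂ W) → ℂ) ≃ₗ[ℂ] W := LinearEquiv.ofFinrankEq _ _ (by simp)
  let ψ : (ℂ × (Fin (finrank ℂ W) → ℂ)) →ₗ[ℂ] V :=
    LinearMap.coprod (LinearMap.toSpanSingleton ℂ V u) (W.subtype ∘ₗ e.toLinearMap)
  have hψ : ∀ a v, ψ (a, v) = a • u + (e v : V) := by
    intro a v
    simp [ψ]
  have hinj : Function.Injective ψ := by
    rw [← LinearMap.ker_eq_bot, eq_bot_iff]
    rintro ⟨a, v⟩ h
    rw [LinearMap.mem_ker, hψ] at h
    have h2 : a • u ∈ Submodule.span ℂ {u} ⊓ W := by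
      refine ⟨Submodule.smul_mem _ _ (Submodule.mem_span_singleton_self _), ?_⟩
      have : a • u = -(e v : V) := eq_neg_of_add_eq_zero_left h
      rw [this]
      exact Submodule.neg_mem _ (e v).2
    rw [hc.inf_eq_bot, Submodule.mem_bot] at h2
    rw [h2, zero_add] at h
    have ha : a = 0 := by
      rcases smul_eq_zero.mp h2 with h3 | h3
      · exact h3
      · exact absurd h3 hu0
    have hv : v = 0 := by
      have h4 : e v = 0 := Subtype.ext h
      exact e.map_eq_zero_iff.mp h4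
    rw [Submodule.mem_bot, ha, hv]
    rfl
  have hfr : finrank ℂ (ℂ × (Fin (finrank ℂ W) → ℂ)) = finrank ℂ V := by
    rw [Module.finrank_prod, Module.finrank_self, Module.finrank_fin_fun, hdim]
  let φ := LinearMap.linearEquivOfInjective ψ hinj hfr
  have hφ : ∀ x, φ x = ψ x := LinearMap.linearEquivOfInjective_apply hinj hfr
  apply AlgIso.symm'
  refine ⟨φ, ?_⟩
  rintro ⟨a, v⟩ ⟨a', v'⟩
  rw [hφ, hφ, hφ]
  have h0 : dsum ES1 (zeroAlg (finrank ℂ W)) (a, v) (a', v') = (a * a', 0) := rfl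
  rw [h0, hψ, hψ, hψ, map_zero]
  have k1 : ∀ z, μ (e v : V) z = 0 := hK _ (e v).2
  have k2 : ∀ z, μ z (e v' : V) = 0 := fun z => by rw [hcomm]; exact hK _ (e v').2 z
  simp only [map_add, map_smul, LinearMap.add_apply, LinearMap.smul_apply, k1, k2,
    huu, smul_zero, add_zero, smul_smul, Submodule.coe_zero]
  congr 1
  exact mul_comm _ _

theorem classification (hP : ConditionP μ) (hnil : ¬ IsNilpotentAlg μ) :
    AlgIso μ (dsum ES1 (zeroAlg (finrank ℂ V - 1))) ∨
    ∃ s, 2 ≤ s ∧ s ≤ finrank ℂ V - 1 ∧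
      ∃ (U : Type) (_ : AddCommGroup U) (_ : Module ℂ U) (ν : U →ₗ[ℂ] U →ₗ[ℂ] U),
        MemZN s ν ∧ AlgIso μ (dsum ES1 (dsum ν (zeroAlg (finrank ℂ V - s - 1)))) := by
  classical
  have hG := good_of_P hP
  obtain ⟨u, W, m, hu0, huu, hc, hW, huW, hm⟩ := peirce hP hnil
  by_cases h1 : der μ W 1 = ⊥
  · left
    refine iso_two hG.comm hu0 huu hc ?_
    intro x hx z
    have := der_mul hG hW (show x ∈ der μ W 0 from hx) z
    rw [h1, Submodule.mem_bot] at this
    exact this
  · right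
    have hex : ∃ m, der μ W m = ⊥ := ⟨m, hm⟩
    obtain ⟨k, hk⟩ : ∃ k, Nat.find hex = k + 2 := by
      apply Nat.exists_eq_add_of_le'
      by_contra hcon
      have h2 : Nat.find hex ≤ 1 := by omega
      apply h1
      rw [eq_bot_iff, ← Nat.find_spec hex]
      exact der_anti hW h2
    have hk1 : der μ W (k + 2) = ⊥ := hk ▸ Nat.find_spec hex
    have hk2 : der μ W (k + 1) ≠ ⊥ := Nat.find_min hex (by omega)
    obtain ⟨F, K, y, hFW, hKW, hFK, hFK', hF, hK, hFfin, hyF, hys, hy0⟩ :=
      nilp_structure hG hW k hk1 hk2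
    have hiso := iso_three hG.comm hu0 huu hc huW hFW hKW hFK hFK' hF hK
    rw [hFfin] at hiso
    refine ⟨k + 2, by omega, ?_, F, inferInstance, inferInstance, restr μ F hF, ?_, hiso⟩
    · have e1 := Submodule.finrank_add_eq_of_isCompl hc
      rw [finrank_span_singleton hu0] at e1
      have e2 := Submodule.finrank_mono hFW
      omega
    · refine memZN_of (s := k + 1) _ hFfin (restr_evolution hF (hP F hF))
        (restr_nilp hF hG hW hFW hk1) ?_
      intro h0
      have h2 := restr_power hF hyF hys (k + 1)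
      rw [h0, Submodule.mem_bot] at h2
      exact hy0 (congrArg Subtype.val h2)

end Iso

section NonIso

variable {U U' : Type} [AddCommGroup U] [Module ℂ U] [AddCommGroup U'] [Module ℂ U']

/-- no nonzero idempotents -/
def NoIdem (ν : U →ₗ[ℂ] U →ₗ[ℂ] U) : Prop := ∀ x, ν x x = x → x = 0

theorem noIdem_of_nilp {ν : U →ₗ[ℂ] U →ₗ[ℂ] U} (h : IsNilpotentAlg ν) : NoIdem ν := by
  intro x hx
  obtain ⟨m, hm, hm0⟩ := h
  have h1 : ∀ j, x ∈ power ν (2 ^ j) := by
    intro j
    induction j with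
    | zero => rw [pow_zero, power_one]; trivial
    | succ j ih =>
      have h1 := mul_mem_power ν Nat.one_le_two_pow Nat.one_le_two_pow ih ih
      rw [hx] at h1
      rwa [show 2 ^ (j + 1) = 2 ^ j + 2 ^ j by ring]
  have h2 := power_anti ν hm (Nat.lt_two_pow_self (n := m)).le (h1 m)
  rw [hm0, Submodule.mem_bot] at h2
  exact h2

theorem noIdem_dsum_zero {ν : U →ₗ[ℂ] U →ₗ[ℂ] U} (h : NoIdem ν) (m : ℕ) :
    NoIdem (dsum ν (zeroAlg m)) := by
  rintro ⟨x, v⟩ hx
  have h1 : (ν x x, (0 : Fin m → ℂ)) = (x, v) := hx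
  rw [Prod.mk.injEq] at h1
  rw [h x h1.1, ← h1.2]
  rfl

theorem noIdem_zero (m : ℕ) : NoIdem (zeroAlg m) := fun _ h => h.symm

theorem cancel_ES1_aux {ν : U →ₗ[ℂ] U →ₗ[ℂ] U} {ν' : U' →ₗ[ℂ] U' →ₗ[ℂ] U'}
    (hν' : NoIdem ν') (φ : (ℂ × U) ≃ₗ[ℂ] (ℂ × U'))
    (hφ : ∀ x y, φ (dsum ES1 ν x y) = dsum ES1 ν' (φ x) (φ y)) (y : U) :
    (φ (0, y)).1 = 0 := by
  have hd : ∀ x y, dsum ES1 ν x y = (x.1 * y.1, ν x.2 y.2) := fun _ _ => rfl
  have hd' : ∀ x y, dsum ES1 ν' x y = (x.1 * y.1, ν' x.2 y.2) := fun _ _ => rfl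
  have h1 : φ ((1 : ℂ), (0 : U)) = dsum ES1 ν' (φ (1, 0)) (φ (1, 0)) := by
    rw [← hφ, hd]
    simp
  rw [hd'] at h1
  have h2 : (φ ((1 : ℂ), (0 : U))).2 = 0 := hν' _ (congrArg Prod.snd h1).symm
  have h3 : (φ ((1 : ℂ), (0 : U))).1 ≠ 0 := by
    intro h4
    have h5 : φ ((1 : ℂ), (0 : U)) = 0 := Prod.ext h4 h2
    have h6 := φ.map_eq_zero_iff.mp h5
    rw [Prod.mk_eq_zero] at h6
    exact one_ne_zero h6.1
  have h4 : dsum ES1 ν' (φ (1, 0)) (φ (0, y)) = 0 := by
    rw [← hφ, hd]
    simp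
  rw [hd'] at h4
  have h5 := congrArg Prod.fst h4
  simp only [Prod.fst_zero] at h5
  rcases mul_eq_zero.mp h5 with h | h
  · exact absurd h h3
  · exact h

theorem cancel_ES1 {ν : U →ₗ[ℂ] U →ₗ[ℂ] U} {ν' : U' →ₗ[ℂ] U' →ₗ[ℂ] U'}
    (hν : NoIdem ν) (hν' : NoIdem ν') (h : AlgIso (dsum ES1 ν) (dsum ES1 ν')) : AlgIso ν ν' := by
  obtain ⟨φ, hφ⟩ := h
  have hφs : ∀ x y, φ.symm (dsum ES1 ν' x y) = dsum ES1 ν (φ.symm x) (φ.symm y) := by
    intro x y
    apply φ.injective
    rw [hφ]
    simp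
  have a1 := cancel_ES1_aux hν' φ hφ
  have a2 := cancel_ES1_aux hν φ.symm hφs
  have b1 : ∀ y, φ (0, y) = (0, (φ (0, y)).2) := fun y => Prod.ext (a1 y) rfl
  have b2 : ∀ y, φ.symm (0, y) = (0, (φ.symm (0, y)).2) := fun y => Prod.ext (a2 y) rfl
  let f : U →ₗ[ℂ] U' := LinearMap.snd ℂ ℂ U' ∘ₗ φ.toLinearMap ∘ₗ LinearMap.inr ℂ ℂ U
  let g : U' →ₗ[ℂ] U := LinearMap.snd ℂ ℂ U ∘ₗ φ.symm.toLinearMap ∘ₗ LinearMap.inr ℂ ℂ U'
  have hf : ∀ y, f y = (φ (0, y)).2 := fun _ => rfl
  have hg : ∀ y, g y = (φ.symm (0, y)).2 := fun _ => rfl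
  refine ⟨LinearEquiv.ofLinearMap f g ?_ ?_, ?_⟩
  · ext y
    rw [LinearMap.comp_apply, hf, hg, ← b2, LinearEquiv.apply_symm_apply]
    rfl
  · ext y
    rw [LinearMap.comp_apply, hf, hg, ← b1, LinearEquiv.symm_apply_apply]
    rfl
  · intro x y
    rw [LinearEquiv.coe_ofLinearMap, hf, hf, hf]
    have h1 : dsum ES1 ν (0, x) (0, y) = (0, ν x y) := by
      change ((0 : ℂ) * 0, ν x y) = _
      rw [mul_zero]
    rw [← h1, hφ]
    rfl

theorem cancel_zero_aux {m m' : ℕ} {ν : U →ₗ[ℂ] U →ₗ[ℂ] U} {ν' : U' →ₗ[ℂ] U' →ₗ[ℂ] U'}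
    (hann : ∀ x, (∀ y, ν x y = 0) → x ∈ Submodule.map₂ ν ⊤ ⊤)
    (φ : (U × (Fin m → ℂ)) ≃ₗ[ℂ] (U' × (Fin m' → ℂ)))
    (hφ : ∀ x y, φ (dsum ν (zeroAlg m) x y) = dsum ν' (zeroAlg m') (φ x) (φ y)) :
    Function.Injective (LinearMap.fst ℂ U' (Fin m' → ℂ) ∘ₗ φ.toLinearMap ∘ₗ
      LinearMap.inl ℂ U (Fin m → ℂ)) := by
  have hd : ∀ x y, dsum ν (zeroAlg m) x y = (ν x.1 y.1, 0) := fun _ _ => rfl
  have hd' : ∀ x y, dsum ν' (zeroAlg m') x y = (ν' x.1 y.1, 0) := fun _ _ => rfl
  rw [← LinearMap.ker_eq_bot, eq_bot_iff]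
  intro x hx
  have h1 : (φ (x, 0)).1 = 0 := hx
  have h2 : ∀ y, ν x y = 0 := by
    intro y
    have h3 : dsum ν' (zeroAlg m') (φ (x, 0)) (φ (y, 0)) = 0 := by
      rw [hd', h1, map_zero, LinearMap.zero_apply]
      rfl
    rw [← hφ, hd] at h3
    have h4 := φ.map_eq_zero_iff.mp h3
    exact congrArg Prod.fst h4
  have h3 := hann x h2
  have h4 : Submodule.map₂ ν ⊤ ⊤ ≤ LinearMap.ker (LinearMap.snd ℂ U' (Fin m' → ℂ) ∘ₗ
      φ.toLinearMap ∘ₗ LinearMap.inl ℂ U (Fin m → ℂ)) := by
    rw [Submodule.map₂_le]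
    intro a _ b _
    have h5 : φ (ν a b, 0) = dsum ν' (zeroAlg m') (φ (a, 0)) (φ (b, 0)) := by
      rw [← hφ, hd]
    rw [hd'] at h5
    exact congrArg Prod.snd h5
  have h5 : (φ (x, 0)).2 = 0 := h4 h3
  have h6 : φ (x, 0) = 0 := Prod.ext h1 h5
  have h7 := φ.map_eq_zero_iff.mp h6
  rw [Submodule.mem_bot]
  exact congrArg Prod.fst h7

theorem cancel_zero [FiniteDimensional ℂ U] [FiniteDimensional ℂ U'] {m m' : ℕ}
    {ν : U →ₗ[ℂ] U →ₗ[ℂ] U} {ν' : U' →ₗ[ℂ] U' →ₗ[ℂ] U'}
    (hann : ∀ x, (∀ y, ν x y = 0) → x ∈ Submodule.map₂ ν ⊤ ⊤)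
    (hann' : ∀ x, (∀ y, ν' x y = 0) → x ∈ Submodule.map₂ ν' ⊤ ⊤)
    (h : AlgIso (dsum ν (zeroAlg m)) (dsum ν' (zeroAlg m'))) :
    finrank ℂ U = finrank ℂ U' ∧ AlgIso ν ν' := by
  obtain ⟨φ, hφ⟩ := h
  have hφs : ∀ x y, φ.symm (dsum ν' (zeroAlg m') x y) =
      dsum ν (zeroAlg m) (φ.symm x) (φ.symm y) := by
    intro x y
    apply φ.injective
    rw [hφ]
    simp
  have i1 := cancel_zero_aux hann φ hφ
  have i2 := cancel_zero_aux hann' φ.symm hφs
  have hfr : finrank ℂ U = finrank ℂ U' :=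
    le_antisymm (LinearMap.finrank_le_finrank_of_injective i1)
      (LinearMap.finrank_le_finrank_of_injective i2)
  refine ⟨hfr, LinearMap.linearEquivOfInjective _ i1 hfr, ?_⟩
  intro x y
  rw [LinearMap.linearEquivOfInjective_apply, LinearMap.linearEquivOfInjective_apply,
    LinearMap.linearEquivOfInjective_apply]
  change (φ (ν x y, 0)).1 = ν' (φ (x, 0)).1 (φ (y, 0)).1
  have h1 : φ (ν x y, 0) = dsum ν' (zeroAlg m') (φ (x, 0)) (φ (y, 0)) := by
    rw [← hφ]
    rfl
  rw [h1]
  rfl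

theorem noniso_one {n m s : ℕ} {ν : U →ₗ[ℂ] U →ₗ[ℂ] U} (hs : 2 ≤ s) (hν : MemZN s ν) :
    ¬ AlgIso (dsum ES1 (zeroAlg n)) (dsum ES1 (dsum ν (zeroAlg m))) := by
  intro h
  obtain ⟨s, rfl⟩ := Nat.exists_eq_add_of_le' hs
  have h1 := cancel_ES1 (noIdem_zero n) (noIdem_dsum_zero (noIdem_of_nilp hν.2.2.1) m) h
  obtain ⟨φ, hφ⟩ := h1
  have h2 : ∀ x y, ν x y = 0 := by
    intro x y
    obtain ⟨a, ha⟩ := φ.surjective (x, 0)
    obtain ⟨b, hb⟩ := φ.surjective (y, 0)
    have h3 := hφ a b
    rw [ha, hb] at h3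
    have h4 : φ (zeroAlg n a b) = 0 := by
      change φ 0 = 0
      exact map_zero _
    rw [h4] at h3
    exact (congrArg Prod.fst h3).symm
  have h3 : ∀ x : U, x = 0 := by
    intro x
    have h4 := ann_le_sq ν hν x (h2 x)
    have h5 : Submodule.map₂ ν ⊤ ⊤ ≤ (⊥ : Submodule ℂ U) := by
      rw [Submodule.map₂_le]
      intro a _ b _
      rw [h2 a b]
      exact Submodule.zero_mem _
    exact (Submodule.mem_bot ℂ).mp (h5 h4)
  have h4 : finrank ℂ U = 0 := by
    have : Subsingleton U := ⟨fun a b => by rw [h3 a, h3 b]⟩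
    exact Module.finrank_zero_of_subsingleton
  have h5 := hν.1
  omega

theorem noniso_two {s s' m m' : ℕ} (hs : 2 ≤ s) (hs' : 2 ≤ s') {ν : U →ₗ[ℂ] U →ₗ[ℂ] U}
    {ν' : U' →ₗ[ℂ] U' →ₗ[ℂ] U'} (hν : MemZN s ν) (hν' : MemZN s' ν')
    (h : AlgIso (dsum ES1 (dsum ν (zeroAlg m))) (dsum ES1 (dsum ν' (zeroAlg m')))) :
    s = s' ∧ AlgIso ν ν' := by
  have hfd := fd_of_evolution ν hν.2.1
  have hfd' := fd_of_evolution ν' hν'.2.1
  have h1 := cancel_ES1 (noIdem_dsum_zero (noIdem_of_nilp hν.2.2.1) m)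
    (noIdem_dsum_zero (noIdem_of_nilp hν'.2.2.1) m') h
  have h2 : finrank ℂ U = finrank ℂ U' ∧ AlgIso ν ν' := by
    obtain ⟨s, rfl⟩ := Nat.exists_eq_add_of_le' hs
    obtain ⟨s', rfl⟩ := Nat.exists_eq_add_of_le' hs'
    exact cancel_zero (ann_le_sq ν hν) (ann_le_sq ν' hν') h1
  refine ⟨?_, h2.2⟩
  rw [← hν.1, ← hν'.1]
  exact h2.1

end NonIso

/-- Full answer to Q1 of the problem (it is true): for every `n`, every `n`-dimensional
non-nilpotent complex evolution algebra with condition `P` is isomorphic to `ES_1 ⊕ C^(n-1)` or to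
`ES_1 ⊕ U ⊕ C^(n-s-1)` with `2 ≤ s ≤ n-1` and `U` of class `ZN^s`; and the listed algebras are
pairwise non-isomorphic. -/
theorem main (n : ℕ) :
    (∀ (V : Type) [AddCommGroup V] [Module ℂ V] [FiniteDimensional ℂ V]
        (μ : V →ₗ[ℂ] V →ₗ[ℂ] V), finrank ℂ V = n → IsEvolutionAlgebra μ → ConditionP μ →
        ¬ IsNilpotentAlg μ →
        AlgIso μ (dsum ES1 (zeroAlg (n - 1))) ∨
        ∃ s, 2 ≤ s ∧ s ≤ n - 1 ∧
          ∃ (U : Type) (_ : AddCommGroup U) (_ : Module ℂ U) (ν : U →ₗ[ℂ] U →ₗ[ℂ] U),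
            MemZN s ν ∧ AlgIso μ (dsum ES1 (dsum ν (zeroAlg (n - s - 1))))) ∧
    (∀ (s : ℕ) (U : Type) [AddCommGroup U] [Module ℂ U] (ν : U →ₗ[ℂ] U →ₗ[ℂ] U),
        2 ≤ s → s ≤ n - 1 → MemZN s ν →
        ¬ AlgIso (dsum ES1 (zeroAlg (n - 1))) (dsum ES1 (dsum ν (zeroAlg (n - s - 1))))) ∧
    (∀ (s s' : ℕ) (U U' : Type) [AddCommGroup U] [Module ℂ U] [AddCommGroup U'] [Module ℂ U']
        (ν : U →ₗ[ℂ] U →ₗ[ℂ] U) (ν' : U' →ₗ[ℂ] U' →ₗ[ℂ] U'),
        2 ≤ s → s ≤ n - 1 → 2 ≤ s' → s' ≤ n - 1 → MemZN s ν → MemZN s' ν' →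
        AlgIso (dsum ES1 (dsum ν (zeroAlg (n - s - 1))))
          (dsum ES1 (dsum ν' (zeroAlg (n - s' - 1)))) →
        s = s' ∧ AlgIso ν ν') := by
  refine ⟨?_, ?_, ?_⟩
  · intro V _ _ _ μ hn _ hP hnil
    subst hn
    exact classification hP hnil
  · intro s U _ _ ν hs _ hν
    exact noniso_one hs hν
  · intro s s' U U' _ _ _ _ ν ν' hs _ hs' _ hν hν' h
    exact noniso_two hs hs' hν hν' h

end Pool.Agent.H16.EvoProof
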